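import Mathlib
import Pool.Agent.H791R2.RS.Defs

set_option autoImplicit false

open MeasureTheory Filter Set ProbabilityTheory
open scoped ENNReal Topology ComplexConjugate

namespace Pool.Agent.H113R3.FC

open Pool.Agent.H791R2.RS (Y nu mu th)

lemma int_nu {F : Type*} [NormedAddCommGroup F] [MeasurableSpace F] [BorelSpace F]
    [SecondCountableTopology F] (f : ℕ → F)
    (h : Summable fun j : ℕ => 1 / (((j : ℝ) + 1) * ((j : ℝ) + 2)) * ‖f j‖) :
    Integrable f nu := by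
  refine ⟨(measurable_of_countable f).aestronglyMeasurable, ?_⟩
  rw [HasFiniteIntegral]
  unfold nu
  rw [lintegral_sum_measure]
  have e : ∀ j : ℕ, ∫⁻ a, ‖f a‖ₑ ∂(ENNReal.ofReal (1 / (((j : ℝ) + 1) * ((j : ℝ) + 2))) •
      Measure.dirac j) = ENNReal.ofReal (1 / (((j : ℝ) + 1) * ((j : ℝ) + 2)) * ‖f j‖) := by
    intro j
    rw [lintegral_smul_measure, lintegral_dirac, smul_eq_mul,
      ENNReal.ofReal_mul (by positivity), ofReal_norm]
  simp_rw [e]
  rw [← ENNReal.ofReal_tsum_of_nonneg (fun j => by positivity) h]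
  exact ENNReal.ofReal_lt_top

theorem exists_c : ∃ c : ℕ → ℂ, Integrable c nu ∧ Integrable (fun j => ‖c j‖ ^ 2) nu ∧
    ∫ j, c j ∂nu = 0 ∧ DenseRange c := by
  classical
  obtain ⟨d, hd⟩ := TopologicalSpace.exists_dense_seq ℂ
  let c0 : ℕ → ℂ := fun j => if ‖d (j.unpair).1‖ ^ 4 ≤ (j : ℝ) + 1 then d (j.unpair).1 else 0
  have hb : ∀ j : ℕ, ‖c0 j‖ ^ 2 ≤ Real.sqrt ((j : ℝ) + 1) := by
    intro j
    apply Real.le_sqrt_of_sq_le
    simp only [c0]
    split_ifs with h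
    · rw [← pow_mul]
      exact h
    · simp
      positivity
  have hs : Summable fun j : ℕ => 1 / (((j : ℝ) + 1) * ((j : ℝ) + 2)) * ‖‖c0 j‖ ^ 2‖ := by
    have h1 : Summable fun n : ℕ => 1 / ((n + 1 : ℕ) : ℝ) ^ (3 / 2 : ℝ) :=
      (summable_nat_add_iff 1).2 (Real.summable_one_div_nat_rpow.2 (by norm_num))
    refine Summable.of_nonneg_of_le (fun j => by positivity) (fun j => ?_) h1
    rw [Real.norm_of_nonneg (by positivity)]
    have h0 : (0 : ℝ) < (j : ℝ) + 1 := by positivity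
    calc 1 / (((j : ℝ) + 1) * ((j : ℝ) + 2)) * ‖c0 j‖ ^ 2
        ≤ 1 / (((j : ℝ) + 1) * ((j : ℝ) + 1)) * Real.sqrt ((j : ℝ) + 1) := by
          refine mul_le_mul ?_ (hb j) (by positivity) (by positivity)
          apply one_div_le_one_div_of_le (by positivity)
          nlinarith
      _ = 1 / ((j + 1 : ℕ) : ℝ) ^ (3 / 2 : ℝ) := by
          push_cast
          rw [Real.sqrt_eq_rpow]
          rw [show (3 / 2 : ℝ) = 2 - 1 / 2 by norm_num, Real.rpow_sub h0]
          rw [Real.rpow_ofNat]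
          field_simp
  have hi2 : Integrable (fun j => ‖c0 j‖ ^ 2) nu := int_nu _ hs
  have hi1 : Integrable c0 nu := by
    refine Integrable.mono' ((integrable_const (1 : ℝ)).add hi2)
      (measurable_of_countable c0).aestronglyMeasurable (Filter.Eventually.of_forall fun j => ?_)
    show ‖c0 j‖ ≤ 1 + ‖c0 j‖ ^ 2
    nlinarith [sq_nonneg (‖c0 j‖ - 1), norm_nonneg (c0 j)]
  have hd0 : DenseRange c0 := by
    refine hd.mono ?_
    rintro _ ⟨i, rfl⟩
    obtain ⟨l, hl⟩ := exists_nat_ge (‖d i‖ ^ 4)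
    refine ⟨Nat.pair i l, ?_⟩
    have h1 : (l : ℝ) ≤ (Nat.pair i l : ℕ) := by exact_mod_cast Nat.right_le_pair i l
    simp only [c0, Nat.unpair_pair]
    rw [if_pos (by linarith)]
  set m : ℂ := ∫ j, c0 j ∂nu with hm
  refine ⟨fun j => c0 j - m, hi1.sub (integrable_const _), ?_, ?_, ?_⟩
  · refine Integrable.mono' ((hi2.const_mul 2).add (integrable_const (2 * ‖m‖ ^ 2)))
      (measurable_of_countable _).aestronglyMeasurable (Filter.Eventually.of_forall fun j => ?_)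
    show ‖‖c0 j - m‖ ^ 2‖ ≤ 2 * ‖c0 j‖ ^ 2 + 2 * ‖m‖ ^ 2
    rw [Real.norm_of_nonneg (by positivity)]
    have h1 := norm_sub_le (c0 j) m
    have h2 : ‖c0 j - m‖ ^ 2 ≤ (‖c0 j‖ + ‖m‖) ^ 2 := pow_le_pow_left₀ (norm_nonneg _) h1 2
    nlinarith [sq_nonneg (‖c0 j‖ - ‖m‖)]
  · rw [integral_sub hi1 (integrable_const _), integral_const]
    simp [hm]
  · have h1 : DenseRange (fun z : ℂ => z - m) :=
      (Homeomorph.subRight m).surjective.denseRange
    exact h1.comp hd0 (by fun_prop)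

end Pool.Agent.H113R3.FC
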