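import Mathlib
import Pool.Agent.H791R2.RS.Defs

set_option autoImplicit false

open MeasureTheory Filter Set ProbabilityTheory
open scoped ENNReal Topology ComplexConjugate

namespace Pool.Agent.H113R3.FC

open Pool.Agent.H791R2.RS (Y nu mu th)

variable {H : Type*} [NormedAddCommGroup H] [InnerProductSpace ℂ H]

/-- finite partial sums of the random series -/
noncomputable def SS (c : ℕ → ℂ) (v : ℤ → H) (s : Finset ℤ) (y : Y) : H := ∑ k ∈ s, c (y k) • v k

lemma mp_eval (k : ℤ) : MeasurePreserving (fun y : Y => y k) mu nu :=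
  measurePreserving_eval_infinitePi (fun _ : ℤ => nu) k

lemma cmeas (c : ℕ → ℂ) (k : ℤ) : Measurable fun y : Y => c (y k) :=
  (measurable_of_countable c).comp (measurable_pi_apply k)

lemma cint {c : ℕ → ℂ} (hc : Integrable c nu) (k : ℤ) : Integrable (fun y : Y => c (y k)) mu :=
  (mp_eval k).integrable_comp_of_integrable hc

lemma cpush {F : Type*} [NormedAddCommGroup F] [NormedSpace ℝ F] [MeasurableSpace F] [BorelSpace F]
    [SecondCountableTopology F] (f : ℕ → F) (k : ℤ) :
    ∫ y : Y, f (y k) ∂mu = ∫ j, f j ∂nu := by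
  have h := integral_map (μ := mu) (mp_eval k).measurable.aemeasurable
    (f := f) (measurable_of_countable f).aestronglyMeasurable
  rw [(mp_eval k).map_eq] at h
  exact h.symm

lemma cindep (c : ℕ → ℂ) {k l : ℤ} (hkl : k ≠ l) :
    IndepFun (fun y : Y => conj (c (y k))) (fun y : Y => c (y l)) mu := by
  have h : iIndepFun (fun (i : ℤ) (ω : ℤ → ℕ) => ω i) mu :=
    iIndepFun_infinitePi (P := fun _ : ℤ => nu) (X := fun _ x => x) (fun _ => measurable_id)
  have h2 := h.indepFun hkl
  exact h2.comp (φ := fun j => conj (c j)) (ψ := c) (measurable_of_countable _)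
    (measurable_of_countable _)

lemma cross {c : ℕ → ℂ} (hc : Integrable c nu) (h0 : ∫ j, c j ∂nu = 0) {k l : ℤ} (hkl : k ≠ l) :
    Integrable (fun y : Y => conj (c (y k)) * c (y l)) mu ∧
      ∫ y : Y, conj (c (y k)) * c (y l) ∂mu = 0 := by
  have hi := cindep c hkl
  have h1 : Integrable (fun y : Y => conj (c (y k))) mu := by
    have := (cint hc k)
    refine (integrable_norm_iff ?_).1 ?_
    · exact (Complex.continuous_conj.measurable.comp (cmeas c k)).aestronglyMeasurable
    · simpa using this.norm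
  refine ⟨hi.integrable_mul h1 (cint hc l), ?_⟩
  rw [hi.integral_fun_mul_eq_mul_integral h1.aestronglyMeasurable (cint hc l).aestronglyMeasurable]
  rw [cpush c l, h0, mul_zero]

lemma SS_meas [MeasurableSpace H] [BorelSpace H] [SecondCountableTopology H]
    (c : ℕ → ℂ) (v : ℤ → H) (s : Finset ℤ) : Measurable (SS c v s) := by
  unfold SS
  refine Finset.measurable_sum _ fun k _ => ?_
  exact (cmeas c k).smul_const _

lemma l2 [MeasurableSpace H] [BorelSpace H] [SecondCountableTopology H]
    {c : ℕ → ℂ} (hc : Integrable c nu) (hc2 : Integrable (fun j => ‖c j‖ ^ 2) nu)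
    (h0 : ∫ j, c j ∂nu = 0) (v : ℤ → H) (s : Finset ℤ) :
    Integrable (fun y => ‖SS c v s y‖ ^ 2) mu ∧
      ∫ y, ‖SS c v s y‖ ^ 2 ∂mu = (∫ j, ‖c j‖ ^ 2 ∂nu) * ∑ k ∈ s, ‖v k‖ ^ 2 := by
  classical
  induction s using Finset.induction_on with
  | empty =>
    simp [SS]
  | insert k s hk ih =>
    have e : ∀ y : Y, ‖SS c v (insert k s) y‖ ^ 2 = ‖c (y k)‖ ^ 2 * ‖v k‖ ^ 2 +
        2 * RCLike.re (∑ l ∈ s, (conj (c (y k)) * c (y l)) * inner ℂ (v k) (v l)) +
        ‖SS c v s y‖ ^ 2 := by
      intro y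
      have e1 : SS c v (insert k s) y = c (y k) • v k + SS c v s y := by
        unfold SS
        rw [Finset.sum_insert hk]
      rw [e1, norm_add_sq (𝕜 := ℂ), norm_smul, mul_pow]
      congr 3
      unfold SS
      rw [inner_sum]
      congr 1
      refine Finset.sum_congr rfl fun l _ => ?_
      rw [inner_smul_left, inner_smul_right]
      ring
    have hne : ∀ l ∈ s, k ≠ l := fun l hl h => hk (by rw [h]; exact hl)
    have hI : Integrable (fun y : Y => ∑ l ∈ s, (conj (c (y k)) * c (y l)) * inner ℂ (v k) (v l))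
        mu := by
      refine integrable_finsetSum _ fun l hl => ?_
      exact (cross hc h0 (hne l hl)).1.mul_const _
    have hI0 : ∫ y : Y, ∑ l ∈ s, (conj (c (y k)) * c (y l)) * inner ℂ (v k) (v l) ∂mu = 0 := by
      rw [integral_finsetSum _ (fun l hl => (cross hc h0 (hne l hl)).1.mul_const _)]
      refine Finset.sum_eq_zero fun l hl => ?_
      rw [integral_mul_const, (cross hc h0 (hne l hl)).2, zero_mul]
    have hA : Integrable (fun y : Y => ‖c (y k)‖ ^ 2 * ‖v k‖ ^ 2) mu :=
      ((mp_eval k).integrable_comp_of_integrable hc2).mul_const _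
    have hB : Integrable (fun y : Y => 2 * RCLike.re
        (∑ l ∈ s, (conj (c (y k)) * c (y l)) * inner ℂ (v k) (v l))) mu := hI.re.const_mul 2
    have hB0 : ∫ y : Y, 2 * RCLike.re
        (∑ l ∈ s, (conj (c (y k)) * c (y l)) * inner ℂ (v k) (v l)) ∂mu = 0 := by
      rw [integral_const_mul, integral_re hI, hI0]
      simp
    simp_rw [e]
    refine ⟨(hA.add hB).add ih.1, ?_⟩
    have e2 := integral_add (hA.add hB) ih.1
    simp only [Pi.add_apply] at e2
    rw [e2, integral_add hA hB, hB0, ih.2, add_zero, integral_mul_const,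
      cpush (fun j => ‖c j‖ ^ 2) k, Finset.sum_insert hk]
    ring

end Pool.Agent.H113R3.FC
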