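import Mathlib
import Pool.Agent.H113R3.FC.L2

set_option autoImplicit false

open MeasureTheory Filter Set ProbabilityTheory
open scoped ENNReal Topology ComplexConjugate

namespace Pool.Agent.H113R3.FC

open Pool.Agent.H791R2.RS (Y nu mu th)

variable {H : Type*} [NormedAddCommGroup H] [InnerProductSpace ℂ H] [MeasurableSpace H]
  [BorelSpace H] [SecondCountableTopology H]

omit [InnerProductSpace ℂ H] [MeasurableSpace H] [BorelSpace H] [SecondCountableTopology H] in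
lemma el2 {f : Y → H} (hi : Integrable (fun y => ‖f y‖ ^ 2) mu) {b : ℝ} (hb : 0 ≤ b)
    (h : ∫ y, ‖f y‖ ^ 2 ∂mu ≤ b ^ 2) : eLpNorm f 2 mu ≤ ENNReal.ofReal b := by
  rw [eLpNorm_eq_lintegral_rpow_enorm_toReal (by norm_num) (by norm_num)]
  have e : ∫⁻ y, ‖f y‖ₑ ^ (2 : ℝ≥0∞).toReal ∂mu = ENNReal.ofReal (∫ y, ‖f y‖ ^ 2 ∂mu) := by
    rw [ofReal_integral_eq_lintegral_ofReal hi (Filter.Eventually.of_forall fun y => by positivity)]
    refine lintegral_congr fun y => ?_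
    rw [ENNReal.toReal_ofNat, ENNReal.rpow_ofNat, ← ofReal_norm, ENNReal.ofReal_pow (norm_nonneg _)]
  rw [e]
  have h2 : ENNReal.ofReal (∫ y, ‖f y‖ ^ 2 ∂mu) ≤ (ENNReal.ofReal b) ^ (2 : ℝ) := by
    rw [ENNReal.rpow_ofNat, ← ENNReal.ofReal_pow hb]
    exact ENNReal.ofReal_le_ofReal h
  calc (ENNReal.ofReal (∫ y, ‖f y‖ ^ 2 ∂mu)) ^ (1 / (2 : ℝ≥0∞).toReal)
      ≤ ((ENNReal.ofReal b) ^ (2 : ℝ)) ^ (1 / (2 : ℝ≥0∞).toReal) := by gcongr
    _ = ENNReal.ofReal b := by
      rw [← ENNReal.rpow_mul]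
      norm_num

/-- the tail of the square sum -/
noncomputable def tl (v : ℤ → H) (B : Finset ℤ) : ℝ := (∑' k, ‖v k‖ ^ 2) - ∑ k ∈ B, ‖v k‖ ^ 2

omit [InnerProductSpace ℂ H] [MeasurableSpace H] [BorelSpace H] [SecondCountableTopology H] in
lemma tl_nonneg {v : ℤ → H} (hv : Summable fun k => ‖v k‖ ^ 2) (B : Finset ℤ) : 0 ≤ tl v B := by
  unfold tl
  have := hv.sum_le_tsum B (fun i _ => by positivity)
  linarith

omit [InnerProductSpace ℂ H] [MeasurableSpace H] [BorelSpace H] [SecondCountableTopology H] in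
lemma sum_sdiff_le {v : ℤ → H} (hv : Summable fun k => ‖v k‖ ^ 2) (B s : Finset ℤ) :
    ∑ k ∈ s \ B, ‖v k‖ ^ 2 ≤ tl v B := by
  unfold tl
  have h1 := hv.sum_le_tsum (s ∪ B) (fun i _ => by positivity)
  rw [← Finset.sum_sdiff (Finset.subset_union_right : B ⊆ s ∪ B)] at h1
  rw [Finset.union_sdiff_right] at h1
  linarith

lemma el2_SS {c : ℕ → ℂ} (hc : Integrable c nu) (hc2 : Integrable (fun j => ‖c j‖ ^ 2) nu)
    (h0 : ∫ j, c j ∂nu = 0) {v : ℤ → H} (hv : Summable fun k => ‖v k‖ ^ 2) {B s : Finset ℤ}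
    (hBs : B ⊆ s) : eLpNorm (fun y => SS c v s y - SS c v B y) 2 mu ≤
      ENNReal.ofReal (Real.sqrt (∫ j, ‖c j‖ ^ 2 ∂nu) * Real.sqrt (tl v B)) := by
  have e : (fun y => SS c v s y - SS c v B y) = SS c v (s \ B) := by
    funext y
    unfold SS
    rw [← Finset.sum_sdiff hBs]
    abel
  rw [e]
  have hs0 : 0 ≤ ∫ j, ‖c j‖ ^ 2 ∂nu := integral_nonneg fun j => by positivity
  refine el2 (l2 hc hc2 h0 v (s \ B)).1 (by positivity) ?_
  rw [(l2 hc hc2 h0 v (s \ B)).2, mul_pow, Real.sq_sqrt hs0, Real.sq_sqrt (tl_nonneg hv B)]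
  exact mul_le_mul_of_nonneg_left (sum_sdiff_le hv B s) hs0

lemma el2_two {c : ℕ → ℂ} (hc : Integrable c nu) (hc2 : Integrable (fun j => ‖c j‖ ^ 2) nu)
    (h0 : ∫ j, c j ∂nu = 0) {v : ℤ → H} (hv : Summable fun k => ‖v k‖ ^ 2) {B s s' : Finset ℤ}
    (hBs : B ⊆ s) (hBs' : B ⊆ s') {b : ℝ} (hb : 0 ≤ b)
    (h : Real.sqrt (∫ j, ‖c j‖ ^ 2 ∂nu) * Real.sqrt (tl v B) ≤ b) :
    eLpNorm (fun y => SS c v s y - SS c v s' y) 2 mu ≤ ENNReal.ofReal (2 * b) := by
  have e : (fun y => SS c v s y - SS c v s' y) =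
      (fun y => SS c v s y - SS c v B y) - (fun y => SS c v s' y - SS c v B y) := by
    funext y
    simp
  rw [e]
  have m1 : AEStronglyMeasurable (fun y => SS c v s y - SS c v B y) mu :=
    ((SS_meas c v s).sub (SS_meas c v B)).aestronglyMeasurable
  have m2 : AEStronglyMeasurable (fun y => SS c v s' y - SS c v B y) mu :=
    ((SS_meas c v s').sub (SS_meas c v B)).aestronglyMeasurable
  refine (eLpNorm_sub_le m1 m2 (by norm_num)).trans ?_
  have hh := ENNReal.ofReal_le_ofReal h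
  have h1 := (el2_SS hc hc2 h0 hv hBs).trans hh
  have h2 := (el2_SS hc hc2 h0 hv hBs').trans hh
  rw [two_mul, ENNReal.ofReal_add hb hb]
  exact add_le_add h1 h2

omit [InnerProductSpace ℂ H] [MeasurableSpace H] [BorelSpace H] [SecondCountableTopology H] in
lemma tl_tendsto {v : ℤ → H} (hv : Summable fun k => ‖v k‖ ^ 2) :
    Tendsto (tl v) atTop (𝓝 0) := by
  have h : Tendsto (fun s : Finset ℤ => ∑ k ∈ s, ‖v k‖ ^ 2) atTop (𝓝 (∑' k, ‖v k‖ ^ 2)) := hv.hasSum
  have := h.const_sub (∑' k, ‖v k‖ ^ 2)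
  rw [sub_self] at this
  exact this

omit [InnerProductSpace ℂ H] [MeasurableSpace H] [BorelSpace H] [SecondCountableTopology H] in
lemma exists_B {v : ℤ → H} (hv : Summable fun k => ‖v k‖ ^ 2) : ∃ B : ℕ → Finset ℤ, Monotone B ∧
    (∀ i, tl v (B i) ≤ (1 / 4) ^ i) ∧ ∀ k : ℤ, ∃ i, k ∈ B i := by
  classical
  have h1 : ∀ i : ℕ, ∃ s : Finset ℤ, ∀ t, s ⊆ t → tl v t ≤ (1 / 4) ^ i := by
    intro i
    have := (tl_tendsto hv).eventually_le_const (show (0 : ℝ) < (1 / 4) ^ i by positivity)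
    obtain ⟨s, hs⟩ := this.exists_forall_of_atTop
    exact ⟨s, fun t ht => hs t ht⟩
  choose s hs using h1
  refine ⟨fun i => (Finset.range (i + 1)).biUnion s ∪ Finset.Icc (-(i : ℤ)) i, ?_, ?_, ?_⟩
  · intro i j hij
    apply Finset.union_subset_union
    · refine Finset.biUnion_subset_biUnion_of_subset_left _ ?_
      exact Finset.range_subset_range.2 (by omega)
    · refine Finset.Icc_subset_Icc ?_ ?_
      · have : (i : ℤ) ≤ j := by exact_mod_cast hij
        omega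
      · exact_mod_cast hij
  · intro i
    apply hs i
    refine Finset.Subset.trans ?_ Finset.subset_union_left
    exact Finset.subset_biUnion_of_mem s (Finset.mem_range.2 (by omega))
  · intro k
    refine ⟨k.natAbs, Finset.mem_union_right _ ?_⟩
    rw [Finset.mem_Icc]
    omega

/-- shift of a finite set -/
def shf (s : Finset ℤ) : Finset ℤ := s.map (Equiv.addRight (1 : ℤ)).toEmbedding

/-- the random series converges almost everywhere along a sequence of windows -/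
theorem exists_Phi [CompleteSpace H] {c : ℕ → ℂ} (hc : Integrable c nu)
    (hc2 : Integrable (fun j => ‖c j‖ ^ 2) nu)
    (h0 : ∫ j, c j ∂nu = 0) {v : ℤ → H} (hv : Summable fun k => ‖v k‖ ^ 2) :
    ∃ (Φ : Y → H) (W : ℕ → Finset ℤ), Measurable Φ ∧ (∀ F : Finset ℤ, ∀ᶠ i in atTop, F ⊆ W i) ∧
      (∀ᵐ y ∂mu, Tendsto (fun i => SS c v (W i) y) atTop (𝓝 (Φ y))) ∧
      (∀ᵐ y ∂mu, Tendsto (fun i => SS c v (shf (W i)) y) atTop (𝓝 (Φ y))) := by
  classical
  obtain ⟨B, hBm, hBt, hBk⟩ := exists_B hv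
  set σ := Real.sqrt (∫ j, ‖c j‖ ^ 2 ∂nu) with hσ
  have hσ0 : 0 ≤ σ := Real.sqrt_nonneg _
  have hbd : ∀ i, σ * Real.sqrt (tl v (B i)) ≤ σ * (1 / 2) ^ i := by
    intro i
    refine mul_le_mul_of_nonneg_left ?_ hσ0
    rw [Real.sqrt_le_left (by positivity)]
    refine (hBt i).trans (le_of_eq ?_)
    rw [← pow_mul, mul_comm i 2, pow_mul]
    norm_num
  let W : ℕ → Finset ℤ := fun i => B i ∪ (B i).map (Equiv.addRight (-1 : ℤ)).toEmbedding
  have hBW : ∀ i, B i ⊆ W i := fun i => Finset.subset_union_left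
  have hBW' : ∀ i, B i ⊆ shf (W i) := by
    intro i k hk
    unfold shf
    rw [Finset.mem_map_equiv]
    apply Finset.mem_union_right
    rw [Finset.mem_map_equiv]
    simpa using hk
  have hsum : Summable fun i : ℕ => 2 * (σ * (1 / 2 : ℝ) ^ i) :=
    ((summable_geometric_of_lt_one (by norm_num) (by norm_num)).mul_left σ).mul_left 2
  have key : ∀ f : ℕ → Y → H, (∀ i, AEStronglyMeasurable (f i) mu) →
      (∀ i, eLpNorm (f i) 2 mu ≤ ENNReal.ofReal (2 * (σ * (1 / 2) ^ i))) →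
      ∀ᵐ y ∂mu, Summable fun i => ‖f i y‖ := by
    intro f hf hfe
    refine summable_norm_of_tsum_eLpNorm_ne_top (p := 2) (by norm_num) hf ?_
    refine ne_top_of_le_ne_top ?_ (ENNReal.tsum_le_tsum hfe)
    rw [← ENNReal.ofReal_tsum_of_nonneg (fun i => by positivity) hsum]
    exact ENNReal.ofReal_ne_top
  have h1 := key (fun i y => SS c v (W (i + 1)) y - SS c v (W i) y)
    (fun i => ((SS_meas c v _).sub (SS_meas c v _)).aestronglyMeasurable)
    (fun i => el2_two hc hc2 h0 hv ((hBm (Nat.le_succ i)).trans (hBW (i + 1))) (hBW i)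
      (by positivity) (hbd i))
  have h2 := key (fun i y => SS c v (shf (W i)) y - SS c v (W i) y)
    (fun i => ((SS_meas c v _).sub (SS_meas c v _)).aestronglyMeasurable)
    (fun i => el2_two hc hc2 h0 hv (hBW' i) (hBW i) (by positivity) (hbd i))
  have h3 : ∀ᵐ y ∂mu, ∃ l : H, Tendsto (fun i => SS c v (W i) y) atTop (𝓝 l) := by
    filter_upwards [h1] with y hy
    have h4 : Summable fun i => SS c v (W (i + 1)) y - SS c v (W i) y := hy.of_norm
    refine ⟨SS c v (W 0) y + ∑' i, (SS c v (W (i + 1)) y - SS c v (W i) y), ?_⟩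
    have h5 := (h4.hasSum.tendsto_sum_nat).const_add (SS c v (W 0) y)
    refine h5.congr fun n => ?_
    rw [Finset.sum_range_sub (fun i => SS c v (W i) y)]
    abel
  obtain ⟨Φ, hΦ, hΦt⟩ := exists_stronglyMeasurable_limit_of_tendsto_ae
    (fun i => (SS_meas c v (W i)).aestronglyMeasurable) h3
  refine ⟨Φ, W, hΦ.measurable, ?_, hΦt, ?_⟩
  · intro F
    have h4 : ∀ k : ℤ, ∀ᶠ i in atTop, k ∈ W i := by
      intro k
      obtain ⟨i, hi⟩ := hBk k
      filter_upwards [eventually_ge_atTop i] with j hj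
      exact hBW j (hBm hj hi)
    have h5 : ∀ᶠ i in atTop, ∀ k ∈ F, k ∈ W i := by
      rw [Filter.eventually_all_finset]
      intro k _
      exact h4 k
    exact h5
  · filter_upwards [hΦt, h2] with y hy1 hy2
    have h4 : Tendsto (fun i => SS c v (shf (W i)) y - SS c v (W i) y) atTop (𝓝 0) :=
      hy2.of_norm.tendsto_atTop_zero
    have h5 := h4.add hy1
    rw [zero_add] at h5
    refine h5.congr fun i => ?_
    abel

end Pool.Agent.H113R3.FC
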