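import Mathlib

set_option autoImplicit false

open Filter Set
open scoped Topology

namespace Pool.Agent.H113R3.FC

variable {H : Type*} [NormedAddCommGroup H] [NormedSpace ℂ H]

/-- vectors with a two-sided orbit tending to `0` -/
def Orb (T : H →L[ℂ] H) (u : H) : Prop :=
  ∃ o : ℤ → H, o 0 = u ∧ (∀ k, T (o k) = o (k + 1)) ∧ Tendsto o cofinite (𝓝 0)

lemma orb_iter {T : H →L[ℂ] H} {o : ℤ → H} (h : ∀ k, T (o k) = o (k + 1)) (n : ℕ) (k : ℤ) :
    (T ^ n) (o k) = o (k + n) := by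
  induction n generalizing k with
  | zero => simp
  | succ n ih =>
    rw [pow_succ']
    show T ((T ^ n) (o k)) = _
    rw [ih, h]
    congr 1
    push_cast
    ring

lemma orb_span {T : H →L[ℂ] H} {x : ℤ → H} (hT : ∀ k, T (x k) = x (k + 1))
    (hx : Tendsto x cofinite (𝓝 0)) {u : H} (hu : u ∈ Submodule.span ℂ (range x)) : Orb T u := by
  induction hu using Submodule.span_induction with
  | mem u hu =>
    obtain ⟨j, rfl⟩ := hu
    refine ⟨fun k => x (k + j), by simp, fun k => ?_, ?_⟩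
    · rw [hT]
      congr 1
      ring
    · exact hx.comp (add_left_injective j).tendsto_cofinite
  | zero => exact ⟨fun _ => 0, rfl, fun _ => map_zero _, tendsto_const_nhds⟩
  | add u v _ _ hu hv =>
    obtain ⟨o, h1, h2, h3⟩ := hu
    obtain ⟨o', h1', h2', h3'⟩ := hv
    refine ⟨fun k => o k + o' k, by simp only [h1, h1'], fun k => by rw [map_add, h2, h2'], ?_⟩
    simpa using h3.add h3'
  | smul a u _ hu =>
    obtain ⟨o, h1, h2, h3⟩ := hu
    refine ⟨fun k => a • o k, by simp only [h1], fun k => by rw [map_smul, h2], ?_⟩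
    simpa using h3.const_smul a

theorem abstract_mix (T : H →L[ℂ] H) (x : ℤ → H) (hT : ∀ k, T (x k) = x (k + 1))
    (hs : Summable fun k => ‖x k‖ ^ 2) (hd : Dense (Submodule.span ℂ (range x) : Set H))
    (U V : Set H) (hU : IsOpen U) (hV : IsOpen V) (hUn : U.Nonempty) (hVn : V.Nonempty) :
    ∃ N : ℕ, ∀ n : ℕ, N ≤ n → ((⇑(T ^ n)) ⁻¹' V ∩ U).Nonempty := by
  have hx : Tendsto x cofinite (𝓝 0) := by
    have h1 := hs.tendsto_cofinite_zero
    have h2 : Tendsto (fun k => ‖x k‖) cofinite (𝓝 0) := by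
      have h3 := h1.sqrt
      simpa using h3
    exact tendsto_zero_iff_norm_tendsto_zero.2 h2
  obtain ⟨u, huU, hu⟩ := hd.inter_open_nonempty U hU hUn
  obtain ⟨v, hvV, hv⟩ := hd.inter_open_nonempty V hV hVn
  obtain ⟨o, ho0, hoT, hot⟩ := orb_span hT hx hu
  obtain ⟨p, hp0, hpT, hpt⟩ := orb_span hT hx hv
  have h1 : Tendsto (fun n : ℕ => u + p (-(n : ℤ))) atTop (𝓝 u) := by
    have hinj : Function.Injective (fun n : ℕ => -(n : ℤ)) := fun a b h => by
      have : -(a : ℤ) = -(b : ℤ) := h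
      omega
    have h2 := hpt.comp hinj.tendsto_cofinite
    rw [Nat.cofinite_eq_atTop] at h2
    simpa using h2.const_add u
  have h2 : Tendsto (fun n : ℕ => o (n : ℤ) + v) atTop (𝓝 v) := by
    have hinj : Function.Injective (fun n : ℕ => (n : ℤ)) := Nat.cast_injective
    have h2 := hot.comp hinj.tendsto_cofinite
    rw [Nat.cofinite_eq_atTop] at h2
    simpa using h2.add_const v
  have h3 := (h1.eventually_mem (hU.mem_nhds huU)).and (h2.eventually_mem (hV.mem_nhds hvV))
  obtain ⟨N, hN⟩ := eventually_atTop.1 h3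
  refine ⟨N, fun n hn => ⟨u + p (-(n : ℤ)), ?_, (hN n hn).1⟩⟩
  show (T ^ n) (u + p (-(n : ℤ))) ∈ V
  rw [map_add, ← ho0, orb_iter hoT, orb_iter hpT]
  have h4 := (hN n hn).2
  rw [← hp0] at h4
  simpa using h4

end Pool.Agent.H113R3.FC
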