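import Mathlib

set_option autoImplicit false

open MeasureTheory Filter Set
open scoped ENNReal Topology

namespace Pool.Agent.H113R3.FC

/-- the widths -/
noncomputable def ep (j : ℕ) : ℝ := (1 / 4 : ℝ) ^ (j + 1)

/-- gaps of level `j` -/
def Oj (j : ℕ) : Set ℝ := {t | ∃ k : ℤ, (k : ℝ) < 2 ^ j * t ∧ 2 ^ j * t < k + ep j}

/-- the union of all gaps -/
def OO : Set ℝ := ⋃ j, Oj j

lemma ep_pos (j : ℕ) : 0 < ep j := by unfold ep; positivity

lemma ep_le (j : ℕ) : ep j ≤ 1 / 4 := by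
  unfold ep
  rw [pow_succ]
  have : (1 / 4 : ℝ) ^ j ≤ 1 := pow_le_one₀ (by norm_num) (by norm_num)
  linarith

lemma hasSum_ep : HasSum ep (1 / 3) := by
  have h := (hasSum_geometric_of_lt_one (r := (1 / 4 : ℝ)) (by norm_num) (by norm_num)).mul_left
    (1 / 4 : ℝ)
  have e : (fun j => (1 / 4 : ℝ) * (1 / 4) ^ j) = ep := by
    funext j
    unfold ep
    rw [pow_succ]
    ring
  rw [e] at h
  norm_num at h
  convert h using 1

lemma isOpen_Oj (j : ℕ) : IsOpen (Oj j) := by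
  have e : Oj j = ⋃ k : ℤ, (fun t : ℝ => 2 ^ j * t) ⁻¹' Ioo (k : ℝ) (k + ep j) := by
    ext t
    simp only [Oj, mem_setOf_eq, mem_iUnion, mem_preimage, mem_Ioo]
  rw [e]
  refine isOpen_iUnion fun k => isOpen_Ioo.preimage (by fun_prop)

lemma isOpen_OO : IsOpen OO := isOpen_iUnion isOpen_Oj

lemma OO_add_one {t : ℝ} : t + 1 ∈ OO ↔ t ∈ OO := by
  unfold OO
  simp only [mem_iUnion]
  refine exists_congr fun j => ?_
  constructor
  · rintro ⟨k, h1, h2⟩
    refine ⟨k - 2 ^ j, ?_, ?_⟩ <;> push_cast <;> nlinarith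
  · rintro ⟨k, h1, h2⟩
    refine ⟨k + 2 ^ j, ?_, ?_⟩ <;> push_cast <;> nlinarith

lemma dense_OO : Dense OO := by
  rw [Metric.dense_iff]
  intro t r hr
  obtain ⟨j, hj⟩ := exists_pow_lt_of_lt_one hr (by norm_num : (1 / 2 : ℝ) < 1)
  refine ⟨(⌊2 ^ j * t⌋ + ep j / 2) / 2 ^ j, ?_, ?_⟩
  · rw [Metric.mem_ball, Real.dist_eq]
    have h2 : (0 : ℝ) < 2 ^ j := by positivity
    have e : ((⌊2 ^ j * t⌋ : ℝ) + ep j / 2) / 2 ^ j - t =
        ((⌊2 ^ j * t⌋ : ℝ) + ep j / 2 - 2 ^ j * t) / 2 ^ j := by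
      field_simp
    rw [e, abs_div, abs_of_pos h2, div_lt_iff₀ h2]
    have h3 := Int.floor_le (2 ^ j * t)
    have h4 := Int.lt_floor_add_one (2 ^ j * t)
    have h5 := ep_pos j
    have h6 := ep_le j
    have h7 : (1 : ℝ) ≤ r * 2 ^ j := by
      have : (1 / 2 : ℝ) ^ j * 2 ^ j = 1 := by
        rw [← mul_pow]
        norm_num
      nlinarith
    refine lt_of_lt_of_le ?_ h7
    rw [abs_lt]
    constructor <;> linarith
  · refine mem_iUnion.2 ⟨j, ⌊2 ^ j * t⌋, ?_, ?_⟩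
    · have h5 := ep_pos j
      rw [mul_div_cancel₀ _ (by positivity)]
      linarith
    · have h5 := ep_pos j
      rw [mul_div_cancel₀ _ (by positivity)]
      linarith

/-- the good points: dyadic rationals at the right end of a piece of the complement -/
def Good (r : ℝ) : Prop := (∃ (m : ℕ) (K : ℤ), r = K / 2 ^ m) ∧
  ∀ (j : ℕ) (k : ℤ), (k : ℝ) < 2 ^ j * r → k + ep j < 2 ^ j * r

lemma good_ceil {t : ℝ} (ht : Irrational t) (htO : t ∉ OO) (m : ℕ) :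
    Good ((⌈2 ^ m * t⌉ : ℝ) / 2 ^ m) := by
  refine ⟨⟨m, ⌈2 ^ m * t⌉, rfl⟩, fun j k hk => ?_⟩
  have hm : (0 : ℝ) < 2 ^ m := by positivity
  have hj0 : (0 : ℝ) < 2 ^ j := by positivity
  have htr : t ≤ (⌈2 ^ m * t⌉ : ℝ) / 2 ^ m := by
    rw [le_div_iff₀ hm, mul_comm]
    exact Int.le_ceil _
  rcases le_or_gt m j with hmj | hjm
  · have e : (2 : ℝ) ^ j * ((⌈2 ^ m * t⌉ : ℝ) / 2 ^ m) = ((2 ^ (j - m) * ⌈2 ^ m * t⌉ : ℤ) : ℝ) := by
      push_cast
      rw [show j = (j - m) + m by omega, pow_add, Nat.add_sub_cancel]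
      field_simp
    rw [e] at hk ⊢
    have h1 : k + 1 ≤ 2 ^ (j - m) * ⌈2 ^ m * t⌉ := by exact_mod_cast hk
    have h2 : (k : ℝ) + 1 ≤ ((2 ^ (j - m) * ⌈2 ^ m * t⌉ : ℤ) : ℝ) := by exact_mod_cast h1
    have := ep_le j
    linarith
  · have h1 : (k : ℝ) < 2 ^ j * t := by
      by_contra hcon
      rw [not_lt] at hcon
      have h2 : 2 ^ m * t ≤ ((k * 2 ^ (m - j) : ℤ) : ℝ) := by
        push_cast
        rw [show (2 : ℝ) ^ m = 2 ^ (m - j) * 2 ^ j by rw [← pow_add]; congr 1; omega]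
        have : (0 : ℝ) < 2 ^ (m - j) := by positivity
        nlinarith
      have h3 : ⌈2 ^ m * t⌉ ≤ k * 2 ^ (m - j) := Int.ceil_le.2 h2
      have h4 : (⌈2 ^ m * t⌉ : ℝ) ≤ k * 2 ^ (m - j) := by exact_mod_cast h3
      have h5 : (2 : ℝ) ^ j * ((⌈2 ^ m * t⌉ : ℝ) / 2 ^ m) ≤ k := by
        rw [← mul_div_assoc, div_le_iff₀ hm]
        rw [show (2 : ℝ) ^ m = 2 ^ (m - j) * 2 ^ j by rw [← pow_add]; congr 1; omega] at *
        nlinarith
      linarith
    have h2 : ¬ (2 ^ j * t < k + ep j) := by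
      intro h3
      exact htO (mem_iUnion.2 ⟨j, k, h1, h3⟩)
    rw [not_lt] at h2
    have h3 : (k : ℝ) + ep j ≠ 2 ^ j * t := by
      intro h4
      apply ht
      refine ⟨((k : ℚ) + (1 / 4) ^ (j + 1)) / 2 ^ j, ?_⟩
      push_cast
      rw [div_eq_iff hj0.ne', mul_comm t]
      rw [← h4]
      rfl
    have h4 : (k : ℝ) + ep j < 2 ^ j * t := lt_of_le_of_ne h2 h3
    nlinarith

lemma tendsto_ceil (t : ℝ) : Tendsto (fun m : ℕ => (⌈2 ^ m * t⌉ : ℝ) / 2 ^ m) atTop (𝓝 t) := by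
  have h1 : Tendsto (fun m : ℕ => t + (1 / 2 : ℝ) ^ m) atTop (𝓝 (t + 0)) :=
    tendsto_const_nhds.add (tendsto_pow_atTop_nhds_zero_of_lt_one (by norm_num) (by norm_num))
  rw [add_zero] at h1
  refine tendsto_of_tendsto_of_tendsto_of_le_of_le tendsto_const_nhds h1 (fun m => ?_) (fun m => ?_)
  · show t ≤ _
    rw [le_div_iff₀ (by positivity), mul_comm]
    exact Int.le_ceil _
  · show (⌈2 ^ m * t⌉ : ℝ) / 2 ^ m ≤ t + (1 / 2 : ℝ) ^ m
    rw [div_le_iff₀ (by positivity), add_mul, ← mul_pow]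
    have := (Int.ceil_lt_add_one (2 ^ m * t)).le
    norm_num
    linarith

lemma meas_one (M i : ℕ) (N : ℤ) :
    volume (Oj (M + i) ∩ Ioo (((N : ℝ) - 1) / 2 ^ M) ((N : ℝ) / 2 ^ M)) ≤
      ENNReal.ofReal (ep (M + i) / 2 ^ M) := by
  have hM : (0 : ℝ) < 2 ^ M := by positivity
  have hi : (0 : ℝ) < 2 ^ i := by positivity
  have hsub : Oj (M + i) ∩ Ioo (((N : ℝ) - 1) / 2 ^ M) ((N : ℝ) / 2 ^ M) ⊆
      ⋃ l ∈ Finset.range (2 ^ i), Ioo (((N : ℝ) * 2 ^ i - (l + 1)) / 2 ^ (M + i))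
        (((N : ℝ) * 2 ^ i - (l + 1) + ep (M + i)) / 2 ^ (M + i)) := by
    rintro t ⟨⟨k, h1, h2⟩, h3, h4⟩
    rw [div_lt_iff₀ hM] at h3
    rw [lt_div_iff₀ hM] at h4
    have h5 : (k : ℝ) < N * 2 ^ i := by
      refine h1.trans ?_
      rw [pow_add]
      nlinarith
    have h6 : ((N : ℝ) - 1) * 2 ^ i < k + 1 := by
      have := ep_le (M + i)
      refine lt_of_lt_of_le (b := 2 ^ (M + i) * t) ?_ (by linarith)
      rw [pow_add]
      nlinarith
    have h7 : k < N * 2 ^ i := by exact_mod_cast h5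
    have h8 : (N - 1) * 2 ^ i < k + 1 := by exact_mod_cast h6
    have h9 : k = N * 2 ^ i - (((N * 2 ^ i - 1 - k).toNat : ℤ) + 1) := by
      rw [Int.toNat_of_nonneg (by omega)]
      ring
    simp only [mem_iUnion, Finset.mem_range]
    refine ⟨(N * 2 ^ i - 1 - k).toNat, ?_, ?_⟩
    · have h10 : ((N * 2 ^ i - 1 - k).toNat : ℤ) < 2 ^ i := by
        rw [Int.toNat_of_nonneg (by omega)]
        have : (N - 1) * 2 ^ i = N * 2 ^ i - 2 ^ i := by ring
        omega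
      exact_mod_cast h10
    · have h11 : (k : ℝ) = N * 2 ^ i - (((N * 2 ^ i - 1 - k).toNat : ℝ) + 1) := by
        exact_mod_cast h9
      rw [mem_Ioo, div_lt_iff₀ (by positivity), lt_div_iff₀ (by positivity)]
      constructor
      · rw [← h11]; linarith
      · rw [← h11]; linarith
  refine (measure_mono hsub).trans ?_
  refine (measure_biUnion_finset_le _ _).trans ?_
  have e : ∀ l ∈ Finset.range (2 ^ i), volume (Ioo (((N : ℝ) * 2 ^ i - (l + 1)) / 2 ^ (M + i))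
        (((N : ℝ) * 2 ^ i - (l + 1) + ep (M + i)) / 2 ^ (M + i))) =
        ENNReal.ofReal (ep (M + i) / 2 ^ (M + i)) := by
    intro l _
    rw [Real.volume_Ioo]
    congr 1
    ring
  rw [Finset.sum_congr rfl e, Finset.sum_const, Finset.card_range, nsmul_eq_mul]
  rw [← ENNReal.ofReal_natCast, ← ENNReal.ofReal_mul (by positivity)]
  apply ENNReal.ofReal_le_ofReal
  push_cast
  rw [pow_add]
  apply le_of_eq
  field_simp

lemma meas_tail (M : ℕ) (N : ℤ) :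
    volume ((⋃ i, Oj (M + i)) ∩ Ioo (((N : ℝ) - 1) / 2 ^ M) ((N : ℝ) / 2 ^ M)) ≤
      ENNReal.ofReal (1 / 3 / 2 ^ M) := by
  rw [iUnion_inter]
  refine (measure_iUnion_le _).trans ?_
  refine (ENNReal.tsum_le_tsum fun i => meas_one M i N).trans ?_
  have hs : Summable fun i => ep (M + i) := by
    have := (summable_nat_add_iff M).2 hasSum_ep.summable
    simpa [add_comm] using this
  rw [← ENNReal.ofReal_tsum_of_nonneg (fun i => by have := ep_pos (M + i); positivity)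
    (hs.div_const _)]
  apply ENNReal.ofReal_le_ofReal
  rw [tsum_div_const]
  refine div_le_div_of_nonneg_right ?_ (by positivity)
  rw [← hasSum_ep.tsum_eq]
  have h := hasSum_ep.summable.sum_add_tsum_nat_add M
  rw [← h]
  have h0 : 0 ≤ ∑ i ∈ Finset.range M, ep i := Finset.sum_nonneg fun i _ => (ep_pos i).le
  have h1 : ∑' i, ep (M + i) = ∑' i, ep (i + M) := by simp [add_comm]
  linarith

lemma good_pos {r : ℝ} (hr : Good r) {δ : ℝ} (hδ : 0 < δ) :
    0 < volume (OOᶜ ∩ Ioo (r - δ) r) := by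
  obtain ⟨⟨m, K, rfl⟩, hg⟩ := hr
  set r : ℝ := K / 2 ^ m with hrdef
  -- the left gap sizes
  have hη : ∀ j : ℕ, 0 < 2 ^ j * r - ((⌈2 ^ j * r⌉ : ℝ) - 1 + ep j) := by
    intro j
    have h1 : (((⌈2 ^ j * r⌉ - 1 : ℤ)) : ℝ) < 2 ^ j * r := by
      push_cast
      have := Int.ceil_lt_add_one (2 ^ j * r)
      linarith
    have h2 := hg j _ h1
    push_cast at h2
    linarith
  have hev : ∀ᶠ M : ℕ in atTop, m ≤ M ∧ (1 / 2 : ℝ) ^ M < δ ∧
      ∀ j ∈ Finset.range m, (1 / 2 : ℝ) ^ M <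
        (2 ^ j * r - ((⌈2 ^ j * r⌉ : ℝ) - 1 + ep j)) / 2 ^ j := by
    have ht : Tendsto (fun M : ℕ => (1 / 2 : ℝ) ^ M) atTop (𝓝 0) :=
      tendsto_pow_atTop_nhds_zero_of_lt_one (by norm_num) (by norm_num)
    refine (eventually_ge_atTop m).and ((ht.eventually_lt_const hδ).and ?_)
    rw [Filter.eventually_all_finset]
    intro j _
    exact ht.eventually_lt_const (div_pos (hη j) (by positivity))
  obtain ⟨M, hmM, hMδ, hMj⟩ := hev.exists
  have hpow : (1 / 2 : ℝ) ^ M = 1 / 2 ^ M := by rw [div_pow, one_pow]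
  have hM0 : (0 : ℝ) < 2 ^ M := by positivity
  have hrN : r = ((K * 2 ^ (M - m) : ℤ) : ℝ) / 2 ^ M := by
    rw [hrdef]
    push_cast
    rw [show M = (M - m) + m by omega, pow_add, Nat.add_sub_cancel]
    field_simp
  have hkey : ∀ j < M, (1 : ℝ) / 2 ^ M ≤ (2 ^ j * r - ((⌈2 ^ j * r⌉ : ℝ) - 1 + ep j)) / 2 ^ j := by
    intro j hj
    rcases lt_or_ge j m with hjm | hmj
    · rw [← hpow]
      exact (hMj j (Finset.mem_range.2 hjm)).le
    · have e : (2 : ℝ) ^ j * r = ((2 ^ (j - m) * K : ℤ) : ℝ) := by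
        rw [hrdef]
        push_cast
        rw [show j = (j - m) + m by omega, pow_add, Nat.add_sub_cancel]
        field_simp
      rw [e, Int.ceil_intCast]
      have h1 := ep_le j
      have h2 : (2 : ℝ) ^ (j + 1) ≤ 2 ^ M := pow_le_pow_right₀ (by norm_num) hj
      rw [div_le_div_iff₀ hM0 (by positivity)]
      rw [pow_succ] at h2
      nlinarith [show (0 : ℝ) < 2 ^ j by positivity]
  have hsub : OO ∩ Ioo (r - 1 / 2 ^ M) r ⊆ (⋃ i, Oj (M + i)) ∩
      Ioo ((((K * 2 ^ (M - m) : ℤ) : ℝ) - 1) / 2 ^ M) (((K * 2 ^ (M - m) : ℤ) : ℝ) / 2 ^ M) := by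
    rintro t ⟨ht, h1, h2⟩
    obtain ⟨j, k, h3, h4⟩ := mem_iUnion.1 ht
    refine ⟨?_, ?_, ?_⟩
    · rcases lt_or_ge j M with hj | hj
      · exfalso
        have h5 := hkey j hj
        have hj0 : (0 : ℝ) < 2 ^ j := by positivity
        rw [le_div_iff₀ hj0] at h5
        have h6 : k ≤ ⌈2 ^ j * r⌉ - 1 := by
          have : (k : ℝ) < 2 ^ j * r := h3.trans (by nlinarith)
          have h7 : k < ⌈2 ^ j * r⌉ := Int.lt_ceil.2 this
          omega
        have h7 : (k : ℝ) ≤ (⌈2 ^ j * r⌉ : ℝ) - 1 := by exact_mod_cast h6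
        have h8 : 2 ^ j * (r - 1 / 2 ^ M) < 2 ^ j * t := by nlinarith
        have h9 : (2 : ℝ) ^ j * (r - 1 / 2 ^ M) = 2 ^ j * r - 1 / 2 ^ M * 2 ^ j := by ring
        linarith
      · refine mem_iUnion.2 ⟨j - M, ?_⟩
        rw [Nat.add_sub_cancel' hj]
        exact ⟨k, h3, h4⟩
    · rw [sub_div, ← hrN]
      exact h1
    · rw [← hrN]
      exact h2
  have hle : volume (OO ∩ Ioo (r - 1 / 2 ^ M) r) ≤ ENNReal.ofReal (1 / 3 / 2 ^ M) :=
    (measure_mono hsub).trans (meas_tail M _)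
  have hI : volume (Ioo (r - 1 / 2 ^ M) r) = ENNReal.ofReal (1 / 2 ^ M) := by
    rw [Real.volume_Ioo]
    congr 1
    ring
  have hpos : 0 < volume (OOᶜ ∩ Ioo (r - 1 / 2 ^ M) r) := by
    by_contra h0
    have h0' : volume (OOᶜ ∩ Ioo (r - 1 / 2 ^ M) r) = 0 := by
      simpa using h0
    have h1 : volume (Ioo (r - 1 / 2 ^ M) r) ≤ volume (OO ∩ Ioo (r - 1 / 2 ^ M) r) +
        volume (OOᶜ ∩ Ioo (r - 1 / 2 ^ M) r) := by
      refine le_trans (measure_mono ?_) (measure_union_le _ _)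
      intro x hx
      by_cases hxO : x ∈ OO
      · exact Or.inl ⟨hxO, hx⟩
      · exact Or.inr ⟨hxO, hx⟩
    rw [h0', add_zero, hI] at h1
    have h2 := h1.trans hle
    rw [ENNReal.ofReal_le_ofReal_iff (by positivity)] at h2
    have : (0 : ℝ) < 1 / 2 ^ M := by positivity
    have e : (1 : ℝ) / 3 / 2 ^ M = (1 / 3) * (1 / 2 ^ M) := by ring
    rw [e] at h2
    linarith
  refine lt_of_lt_of_le hpos (measure_mono ?_)
  refine inter_subset_inter_right _ (Ioo_subset_Ioo_left ?_)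
  rw [hpow] at hMδ
  linarith

lemma exists_irr : ∃ t : ℝ, Irrational t ∧ t ∉ OO := by
  by_contra hcon
  push Not at hcon
  have h1 : volume (OO ∩ Ioo (((1 : ℤ) : ℝ) - 1) ((1 : ℤ) : ℝ)) ≤ ENNReal.ofReal (1 / 3) := by
    have h := meas_tail 0 1
    simp only [pow_zero, div_one, zero_add] at h
    exact h
  have h2 : (Ioo (((1 : ℤ) : ℝ) - 1) ((1 : ℤ) : ℝ)) ⊆
      (OO ∩ Ioo (((1 : ℤ) : ℝ) - 1) ((1 : ℤ) : ℝ)) ∪ Set.range (fun q : ℚ => (q : ℝ)) := by
    intro x hx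
    by_cases hxi : Irrational x
    · exact Or.inl ⟨hcon x hxi, hx⟩
    · right
      unfold Irrational at hxi
      rw [not_not] at hxi
      exact hxi
  have h3 := (measure_mono (μ := volume) h2).trans (measure_union_le _ _)
  have h4 : volume (Set.range (fun q : ℚ => (q : ℝ))) = 0 :=
    (Set.countable_range _).measure_zero _
  rw [h4, add_zero, Real.volume_Ioo] at h3
  have h5 := h3.trans h1
  rw [ENNReal.ofReal_le_ofReal_iff (by norm_num)] at h5
  norm_num at h5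

end Pool.Agent.H113R3.FC
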