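import Mathlib
import Pool.Agent.H791R2.RS.Defs
import Pool.Agent.H113R3.FC.SetO

set_option autoImplicit false

open MeasureTheory Filter Set
open scoped ENNReal Topology ComplexConjugate InnerProductSpace

namespace Pool.Agent.H113R3.FC

open Pool.Agent.H791R2.RS (E opE opE_apply opE_norm norm_sq_E summable_E)

/-- the circle -/
abbrev TT : Type := AddCircle (1 : ℝ)

/-- Haar measure -/
noncomputable abbrev hm : Measure TT := AddCircle.haarAddCircle (T := (1 : ℝ))

/-- `L²` of the circle -/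
abbrev L2 : Type := Lp ℂ 2 hm

lemma vol_eq : (volume : Measure TT) = hm := by
  rw [AddCircle.volume_eq_smul_haarAddCircle]
  simp

lemma mp_mk (a : ℝ) : MeasurePreserving (fun t : ℝ => (t : TT)) (volume.restrict (Ioc a (a + 1))) hm := by
  rw [← vol_eq]
  exact AddCircle.measurePreserving_mk 1 a

/-- the union of gaps on the circle -/
def Oc : Set TT := (fun t : ℝ => (t : TT)) '' OO

lemma OO_add_int {t : ℝ} (n : ℤ) : t + n ∈ OO ↔ t ∈ OO := by
  induction n using Int.induction_on with
  | zero => simp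
  | succ n ih =>
    push_cast at ih ⊢
    rw [← add_assoc, OO_add_one, ih]
  | pred n ih =>
    push_cast at ih ⊢
    rw [← ih, ← OO_add_one (t := t + (-(n : ℝ) - 1))]
    have : t + (-(n : ℝ) - 1) + 1 = t + -(n : ℝ) := by ring
    rw [this]

lemma mem_Oc {t : ℝ} : (t : TT) ∈ Oc ↔ t ∈ OO := by
  constructor
  · rintro ⟨s, hs, hst⟩
    simp only at hst
    have h1 : ((s - t : ℝ) : TT) = 0 := by
      rw [AddCircle.coe_sub, hst, sub_self]
    rw [AddCircle.coe_eq_zero_iff] at h1
    obtain ⟨n, hn⟩ := h1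
    have h2 : s = t + n := by
      simp at hn
      linarith
    rw [h2, OO_add_int] at hs
    exact hs
  · intro h
    exact ⟨t, h, rfl⟩

lemma isOpen_Oc : IsOpen Oc := QuotientAddGroup.isOpenMap_coe _ isOpen_OO

/-- the indicator of the Cantor set -/
noncomputable def fE : TT → ℂ := Ocᶜ.indicator fun _ => 1

lemma fE_meas : Measurable fE := measurable_const.indicator isOpen_Oc.measurableSet.compl

lemma fE_bd (t : TT) : ‖fE t‖ ≤ 1 := by
  unfold fE
  by_cases h : t ∈ Ocᶜ
  · rw [indicator_of_mem h]; simp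
  · rw [indicator_of_notMem h]; simp

lemma fE_conj (t : TT) : conj (fE t) = fE t := by
  unfold fE
  by_cases h : t ∈ Ocᶜ
  · rw [indicator_of_mem h]; simp
  · rw [indicator_of_notMem h]; simp

lemma fE_of_not {t : ℝ} (h : t ∉ OO) : fE (t : TT) = 1 := by
  unfold fE
  rw [indicator_of_mem]
  rw [mem_compl_iff, mem_Oc]
  exact h

lemma fE_of_mem {t : ℝ} (h : t ∈ OO) : fE (t : TT) = 0 := by
  unfold fE
  rw [indicator_of_notMem]
  rw [mem_compl_iff, mem_Oc, not_not]
  exact h

/-- the weights -/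
noncomputable def w (n : ℤ) : ℝ := (1 + |(n : ℝ)|)⁻¹

lemma w_pos (n : ℤ) : 0 < w n := by unfold w; positivity

lemma w_le (n : ℤ) : w n ≤ 1 := by
  unfold w
  apply inv_le_one_of_one_le₀
  have := abs_nonneg (n : ℝ)
  linarith

lemma w_ratio (n : ℤ) : w n / w (n - 1) ≤ 2 := by
  unfold w
  rw [inv_div_inv, div_le_iff₀ (by positivity)]
  push_cast
  have h1 : |(n : ℝ) - 1| ≤ |(n : ℝ)| + |(1 : ℝ)| := abs_sub _ _
  rw [abs_one] at h1
  have := abs_nonneg (n : ℝ)
  linarith

lemma summable_w_sq : Summable fun n => w n ^ 2 := by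
  have h1 : Summable fun n : ℕ => 1 / ((n + 1 : ℕ) : ℝ) ^ 2 :=
    (summable_nat_add_iff 1).2 (Real.summable_one_div_nat_pow.2 (by norm_num))
  apply Summable.of_nat_of_neg
  · refine h1.congr fun n => ?_
    unfold w
    push_cast
    rw [abs_of_nonneg (by positivity : (0 : ℝ) ≤ n), inv_pow, one_div, add_comm]
  · refine h1.congr fun n => ?_
    unfold w
    push_cast
    rw [abs_neg, abs_of_nonneg (by positivity : (0 : ℝ) ≤ n), inv_pow, one_div, add_comm]

/-- the diagonal operator -/
noncomputable def Ds : E →L[ℂ] E := opE (fun n => ((w n : ℝ) : ℂ)) 0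

/-- the weighted shift -/
noncomputable def Tt : E →L[ℂ] E := opE (fun n => ((w n / w (n - 1) : ℝ) : ℂ)) 1

lemma Ds_apply (v : E) (n : ℤ) : Ds v n = w n * v n := by
  unfold Ds
  rw [opE_apply _ _ 1 (fun n => ?_)]
  · simp
  · rw [Complex.norm_real, Real.norm_of_nonneg (w_pos n).le]
    exact w_le n

lemma Tt_apply (v : E) (n : ℤ) : Tt v n = ((w n / w (n - 1) : ℝ) : ℂ) * v (n - 1) := by
  unfold Tt
  rw [opE_apply _ _ 2 (fun n => ?_)]
  rw [Complex.norm_real, Real.norm_of_nonneg (div_nonneg (w_pos n).le (w_pos _).le)]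
  exact w_ratio n

lemma summable_wv (v : E) : Summable fun n => ‖(w n : ℂ) * v n‖ := by
  have h1 := (summable_w_sq.add (summable_E v)).mul_left (1 / 2 : ℝ)
  refine Summable.of_nonneg_of_le (fun n => norm_nonneg _) (fun n => ?_) h1
  rw [norm_mul, Complex.norm_real, Real.norm_of_nonneg (w_pos n).le]
  nlinarith [sq_nonneg (w n - ‖v n‖)]

lemma summable_four {a : ℤ → ℂ} (ha : Summable fun n => ‖a n‖) :
    Summable fun n => a n • (fourier n : C(TT, ℂ)) := by
  apply Summable.of_norm
  refine ha.congr fun n => ?_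
  rw [norm_smul, fourier_norm, mul_one]

/-- synthesis -/
noncomputable def syn (a : ℤ → ℂ) : C(TT, ℂ) := ∑' n, a n • (fourier n : C(TT, ℂ))

lemma syn_apply {a : ℤ → ℂ} (ha : Summable fun n => ‖a n‖) (t : TT) :
    syn a t = ∑' n, a n * fourier n t := by
  have h := (ContinuousMap.evalCLM ℂ t).hasSum (summable_four ha).hasSum
  exact h.tsum_eq.symm

/-- the element of `L²` given by a continuous function -/
noncomputable abbrev cL (f : C(TT, ℂ)) : L2 := ContinuousMap.toLp (E := ℂ) 2 hm ℂ f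

lemma repr_cL_syn {a : ℤ → ℂ} (ha : Summable fun n => ‖a n‖) (m : ℤ) :
    fourierBasis.repr (cL (syn a)) m = a m := by
  have h1 : HasSum (fun n => a n • (fourierBasis n : L2)) (cL (syn a)) := by
    have h := (ContinuousMap.toLp (E := ℂ) 2 hm ℂ).hasSum (summable_four ha).hasSum
    have e : (fun n => a n • (fourierBasis n : L2)) =
        fun n => (ContinuousMap.toLp (E := ℂ) 2 hm ℂ) (a n • (fourier n : C(TT, ℂ))) := by
      funext n
      rw [map_smul, coe_fourierBasis]
    rw [e]
    exact h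
  have h2 := (innerSL ℂ (fourierBasis m : L2)).hasSum h1
  have h3 : (fun n => innerSL ℂ (fourierBasis m : L2) (a n • (fourierBasis n : L2))) =
      fun n => if n = m then a m else 0 := by
    funext n
    rw [innerSL_apply_apply, inner_smul_right,
      (orthonormal_iff_ite.1 (fourierBasis (T := (1 : ℝ))).orthonormal) m n]
    by_cases h : n = m
    · subst h; simp
    · rw [if_neg h, if_neg (fun h' => h h'.symm), mul_zero]
  rw [h3, innerSL_apply_apply] at h2
  rw [HilbertBasis.repr_apply_apply]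
  exact h2.unique (hasSum_ite_eq m (a m))

lemma repr_syn (v : E) : fourierBasis.repr (cL (syn fun n => w n * v n)) = Ds v := by
  ext m
  rw [repr_cL_syn (summable_wv v), Ds_apply]

/-- `F v` -/
noncomputable def Fv (v : E) : C(TT, ℂ) := syn fun n => w n * v n

lemma inner_Ds (v u : E) : inner ℂ v (Ds u) = inner ℂ (Ds v) u := by
  rw [lp.inner_eq_tsum, lp.inner_eq_tsum]
  refine tsum_congr fun n => ?_
  rw [Ds_apply, Ds_apply]
  simp only [RCLike.inner_apply, map_mul, Complex.conj_ofReal]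
  ring

lemma inner_V (v : E) (g : L2) : inner ℂ v (Ds (fourierBasis.repr g)) = inner ℂ (cL (Fv v)) g := by
  rw [inner_Ds, ← repr_syn]
  exact fourierBasis.repr.inner_map_map _ _

/-- the functions `1_E e_k` -/
noncomputable def gf (k : ℤ) (t : TT) : ℂ := fE t * fourier k t

lemma gf_mem (f : C(TT, ℂ)) : MemLp (fun t => fE t * f t) 2 hm := by
  refine MemLp.of_bound (fE_meas.mul f.continuous.measurable).aestronglyMeasurable ‖f‖
    (Filter.Eventually.of_forall fun t => ?_)
  rw [norm_mul]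
  calc ‖fE t‖ * ‖f t‖ ≤ 1 * ‖f‖ :=
        mul_le_mul (fE_bd t) (f.norm_coe_le_norm t) (norm_nonneg _) zero_le_one
    _ = ‖f‖ := one_mul _

/-- `1_E f` as an element of `L²` -/
noncomputable def gL (f : C(TT, ℂ)) : L2 := (gf_mem f).toLp _

/-- the basic vectors -/
noncomputable def xx (k : ℤ) : E := Ds (fourierBasis.repr (gL (fourier k)))

lemma xx_apply (k n : ℤ) : xx k n = w n * fourierCoeff (fun t => fE t * fourier k t) n := by
  unfold xx
  rw [Ds_apply, fourierBasis_repr]
  congr 1
  exact congrFun (fourierCoeff_congr_ae (gf_mem _).coeFn_toLp) n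

lemma coef_shift (k n : ℤ) : fourierCoeff (fun t : TT => fE t * fourier k t) n =
    fourierCoeff fE (n - k) := by
  unfold fourierCoeff
  refine integral_congr_ae (Filter.Eventually.of_forall fun t => ?_)
  simp only [smul_eq_mul]
  rw [show -(n - k) = -n + k by ring, fourier_add]
  ring

lemma xx_apply' (k n : ℤ) : xx k n = w n * fourierCoeff fE (n - k) := by
  rw [xx_apply, coef_shift]

lemma Tt_xx (k : ℤ) : Tt (xx k) = xx (k + 1) := by
  ext n
  rw [Tt_apply, xx_apply', xx_apply']
  have h := (w_pos (n - 1)).ne'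
  rw [show n - 1 - k = n - (k + 1) by ring]
  push_cast
  have h' : ((w (n - 1) : ℝ) : ℂ) ≠ 0 := by exact_mod_cast h
  field_simp

lemma sq_coef : Summable fun n => ‖fourierCoeff fE n‖ ^ 2 := by
  have h := summable_E (fourierBasis.repr (gL (fourier 0)))
  refine h.congr fun n => ?_
  rw [fourierBasis_repr]
  congr 2
  have h1 := congrFun (fourierCoeff_congr_ae (gf_mem (fourier 0)).coeFn_toLp) n
  refine h1.trans ?_
  rw [coef_shift, sub_zero]

lemma xx_sq : Summable fun k => ‖xx k‖ ^ 2 := by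
  have h1 : Summable fun p : ℤ × ℤ => w p.1 ^ 2 * ‖fourierCoeff fE p.2‖ ^ 2 :=
    summable_w_sq.mul_of_nonneg sq_coef (fun n => by positivity) (fun n => by positivity)
  let e : ℤ × ℤ ≃ ℤ × ℤ :=
    { toFun := fun p => (p.2, p.2 - p.1)
      invFun := fun p => (p.1 - p.2, p.1)
      left_inv := fun p => by simp
      right_inv := fun p => by simp }
  have h2 : Summable fun p : ℤ × ℤ => w p.2 ^ 2 * ‖fourierCoeff fE (p.2 - p.1)‖ ^ 2 :=
    (e.summable_iff (f := fun p : ℤ × ℤ => w p.1 ^ 2 * ‖fourierCoeff fE p.2‖ ^ 2)).2 h1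
  have h3 := h2.prod
  refine h3.congr fun k => ?_
  rw [norm_sq_E]
  refine tsum_congr fun n => ?_
  rw [xx_apply', norm_mul, mul_pow, Complex.norm_real, Real.norm_of_nonneg (w_pos n).le]

/-- point masses -/
noncomputable def dl (t : TT) : E := ⟨fun n => w n * fourier (-n) t, by
  apply memℓp_gen
  refine summable_w_sq.congr fun n => ?_
  rw [norm_mul, Complex.norm_real, Real.norm_of_nonneg (w_pos n).le, fourier_apply, Circle.norm_coe]
  simp⟩

lemma dl_apply (t : TT) (n : ℤ) : dl t n = w n * fourier (-n) t := rfl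

lemma Tt_dl (t : TT) : Tt (dl t) = (fourier 1 t : ℂ) • dl t := by
  ext n
  rw [Tt_apply, lp.coeFn_smul, Pi.smul_apply, dl_apply, dl_apply, smul_eq_mul]
  have h' : ((w (n - 1) : ℝ) : ℂ) ≠ 0 := by exact_mod_cast (w_pos (n - 1)).ne'
  rw [show -(n - 1) = 1 + -n by ring, fourier_add]
  push_cast
  field_simp

lemma inner_dl (v : E) (t : TT) : inner ℂ v (dl t) = conj (Fv v t) := by
  rw [lp.inner_eq_tsum, Fv, syn_apply (summable_wv v), Complex.conj_tsum]
  refine tsum_congr fun n => ?_
  rw [dl_apply, fourier_neg]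
  simp only [RCLike.inner_apply, map_mul, Complex.conj_ofReal]
  ring

lemma inner_xx (v : E) (k : ℤ) : inner ℂ v (xx k) = inner ℂ (gL (Fv v)) (fourierBasis k : L2) := by
  unfold xx
  rw [inner_V, L2.inner_def, L2.inner_def]
  refine integral_congr_ae ?_
  filter_upwards [(gf_mem (fourier k)).coeFn_toLp, (gf_mem (Fv v)).coeFn_toLp,
    coeFn_fourierLp 2 k, ContinuousMap.coeFn_toLp (p := 2) (𝕜 := ℂ) hm (Fv v)] with t h1 h2 h3 h4
  rw [coe_fourierBasis]
  unfold gL
  rw [h1, h2, h3, h4]
  simp only [RCLike.inner_apply, map_mul, fE_conj]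
  ring

lemma perp_iff (v : E) : (∀ k, inner ℂ v (xx k) = 0) ↔ ∀ᵐ t ∂hm, fE t * Fv v t = 0 := by
  constructor
  · intro h
    have h1 : gL (Fv v) = 0 := by
      have h2 : fourierBasis.repr (gL (Fv v)) = 0 := by
        ext k
        rw [HilbertBasis.repr_apply_apply, ← inner_conj_symm, ← inner_xx, h k]
        simp
      exact (LinearIsometryEquiv.map_eq_zero_iff _).1 h2
    have h3 := (gf_mem (Fv v)).coeFn_toLp
    have h4 : (gL (Fv v) : TT → ℂ) =ᵐ[hm] 0 := by
      rw [h1]
      exact Lp.coeFn_zero _ _ _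
    filter_upwards [h3, h4] with t h5 h6
    rw [← h5]
    exact h6
  · intro h k
    rw [inner_xx]
    have h1 : gL (Fv v) = 0 := by
      apply Lp.ext
      filter_upwards [(gf_mem (Fv v)).coeFn_toLp, h, Lp.coeFn_zero ℂ 2 hm] with t h2 h3 h4
      rw [h4]
      exact h2.trans h3
    rw [h1, inner_zero_left]

end Pool.Agent.H113R3.FC
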