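import Mathlib
import Pool.Agent.H113R3.FC.Conv
import Pool.Agent.H113R3.FC.Coef
import Pool.Agent.H113R3.FC.Birk
import Pool.Agent.H791R2.RS.T_ERG
import Pool.Agent.H791R2.RS.T_THM
import Pool.Agent.H791R2.RS.T_UP1
import Pool.Agent.H791R2.RS.T_UP2
import Pool.Agent.H791R2.RS.T_NUT

set_option autoImplicit false

open MeasureTheory Filter Set ProbabilityTheory
open scoped ENNReal Topology ComplexConjugate

namespace Pool.Agent.H113R3.FC

open Pool.Agent.H791R2.RS (Y nu mu th t_THM t_ERG t_UP1 t_UP2 t_NUT)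

/-- set the coordinates in `F` to `a` -/
def upd (F : Finset ℤ) (a : ℤ → ℕ) (y : Y) : Y := fun k => if k ∈ F then a k else y k

lemma upd_insert (F : Finset ℤ) (z : ℤ) (a : ℤ → ℕ) :
    upd (insert z F) a = (fun y : Y => Function.update y z (a z)) ∘ upd F a := by
  funext y k
  simp only [upd, Function.comp, Function.update_apply, Finset.mem_insert]
  by_cases hk : k = z
  · subst hk
    simp
  · simp [hk]

lemma upd_map (F : Finset ℤ) (a : ℤ → ℕ) :
    Measurable (upd F a) ∧ ∃ C : ℝ≥0∞, C ≠ ⊤ ∧ mu.map (upd F a) ≤ C • mu := by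
  classical
  induction F using Finset.induction_on with
  | empty =>
    have e : upd ∅ a = id := by
      funext y k
      simp [upd]
    rw [e]
    refine ⟨measurable_id, 1, ENNReal.one_ne_top, ?_⟩
    rw [Measure.map_id, one_smul]
  | insert z F hz ih =>
    obtain ⟨hm, C, hC, hle⟩ := ih
    obtain ⟨hq, C', hC', hle'⟩ := t_UP2 t_NUT t_UP1 z (a z)
    rw [upd_insert]
    refine ⟨hq.measurable.comp hm, C * C', ENNReal.mul_ne_top hC hC', ?_⟩
    rw [← Measure.map_map hq.measurable hm]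
    refine (Measure.map_mono hle hq.measurable).trans ?_
    rw [Measure.map_smul]
    refine Measure.le_iff.2 fun A hA => ?_
    have h1 := Measure.le_iff.1 hle' A hA
    simp only [Measure.smul_apply, smul_eq_mul] at h1 ⊢
    rw [mul_assoc]
    exact mul_le_mul_right h1 C

variable {H : Type*} [NormedAddCommGroup H] [InnerProductSpace ℂ H] [MeasurableSpace H]
  [BorelSpace H] [SecondCountableTopology H]

omit [MeasurableSpace H] [BorelSpace H] [SecondCountableTopology H] in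
lemma SS_upd (c : ℕ → ℂ) (v : ℤ → H) {F s : Finset ℤ} (h : F ⊆ s) (a : ℤ → ℕ) (y : Y) :
    SS c v s (upd F a y) = SS c v s y - SS c v F y + ∑ k ∈ F, c (a k) • v k := by
  unfold SS
  rw [← Finset.sum_sdiff h, ← Finset.sum_sdiff h]
  have e1 : ∑ k ∈ s \ F, c (upd F a y k) • v k = ∑ k ∈ s \ F, c (y k) • v k := by
    refine Finset.sum_congr rfl fun k hk => ?_
    rw [Finset.mem_sdiff] at hk
    simp only [upd, if_neg hk.2]
  have e2 : ∑ k ∈ F, c (upd F a y k) • v k = ∑ k ∈ F, c (a k) • v k := by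
    refine Finset.sum_congr rfl fun k hk => ?_
    simp only [upd, if_pos hk]
  rw [e1, e2]
  abel

lemma small_pos {c : ℕ → ℂ} (hc : Integrable c nu) (hc2 : Integrable (fun j => ‖c j‖ ^ 2) nu)
    (h0 : ∫ j, c j ∂nu = 0) {v : ℤ → H} (hv : Summable fun k => ‖v k‖ ^ 2)
    {Φ : Y → H} {W : ℕ → Finset ℤ}
    (hW : ∀ F : Finset ℤ, ∀ᶠ i in atTop, F ⊆ W i)
    (ht : ∀ᵐ y ∂mu, Tendsto (fun i => SS c v (W i) y) atTop (𝓝 (Φ y)))
    (F : Finset ℤ) {ε : ℝ} (hε : Real.sqrt (∫ j, ‖c j‖ ^ 2 ∂nu) * Real.sqrt (tl v F) < ε) :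
    0 < mu {y | ‖Φ y - SS c v F y‖ < ε} := by
  have hε0 : 0 < ε := lt_of_le_of_lt (by positivity) hε
  have h1 : eLpNorm (fun y => Φ y - SS c v F y) 2 mu ≤
      ENNReal.ofReal (Real.sqrt (∫ j, ‖c j‖ ^ 2 ∂nu) * Real.sqrt (tl v F)) := by
    have h2 : eLpNorm (fun y => Φ y - SS c v F y) 2 mu ≤
        liminf (fun i => eLpNorm (fun y => SS c v (W i) y - SS c v F y) 2 mu) atTop := by
      refine Lp.eLpNorm_lim_le_liminf_eLpNorm
        (fun i => ((SS_meas c v (W i)).sub (SS_meas c v F)).aestronglyMeasurable) _ ?_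
      filter_upwards [ht] with y hy
      exact hy.sub_const _
    refine h2.trans ?_
    refine liminf_le_of_frequently_le' ?_
    refine Eventually.frequently ?_
    filter_upwards [hW F] with i hi
    exact el2_SS hc hc2 h0 hv hi
  by_contra hcon
  have h3 : mu {y | ‖Φ y - SS c v F y‖ < ε} = 0 := by simpa using hcon
  have h4 : ∀ᵐ y ∂mu, ‖(fun _ : Y => ε) y‖ ≤ ‖Φ y - SS c v F y‖ := by
    have : ∀ᵐ y ∂mu, y ∉ {y | ‖Φ y - SS c v F y‖ < ε} := measure_eq_zero_iff_ae_notMem.1 h3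
    filter_upwards [this] with y hy
    have hy' : ε ≤ ‖Φ y - SS c v F y‖ := not_lt.1 hy
    show ‖ε‖ ≤ ‖Φ y - SS c v F y‖
    rwa [Real.norm_of_nonneg hε0.le]
  have h5 := eLpNorm_mono_ae (p := 2) h4
  rw [eLpNorm_const _ (by norm_num) (IsProbabilityMeasure.ne_zero mu)] at h5
  simp only [measure_univ, ENNReal.one_rpow, mul_one] at h5
  have h6 := h5.trans h1
  rw [← ofReal_norm, Real.norm_of_nonneg hε0.le,
    ENNReal.ofReal_le_ofReal_iff (by positivity)] at h6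
  linarith

lemma full_support {c : ℕ → ℂ} (hc : Integrable c nu) (hc2 : Integrable (fun j => ‖c j‖ ^ 2) nu)
    (h0 : ∫ j, c j ∂nu = 0) (hd : DenseRange c) {v : ℤ → H} (hv : Summable fun k => ‖v k‖ ^ 2)
    (hvd : Dense (Submodule.span ℂ (range v) : Set H))
    {Φ : Y → H} {W : ℕ → Finset ℤ}
    (hW : ∀ F : Finset ℤ, ∀ᶠ i in atTop, F ⊆ W i)
    (ht : ∀ᵐ y ∂mu, Tendsto (fun i => SS c v (W i) y) atTop (𝓝 (Φ y)))
    {U : Set H} (hU : IsOpen U) (hUn : U.Nonempty) : 0 < mu (Φ ⁻¹' U) := by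
  classical
  obtain ⟨u0, hu0U, hu0⟩ := hvd.inter_open_nonempty U hU hUn
  obtain ⟨ε, hε, hball⟩ := Metric.isOpen_iff.1 hU u0 hu0U
  obtain ⟨b, hb⟩ := (Finsupp.mem_span_range_iff_exists_finsupp).1 hu0
  set σ := Real.sqrt (∫ j, ‖c j‖ ^ 2 ∂nu) with hσ
  have hev : ∀ᶠ F : Finset ℤ in atTop, σ * Real.sqrt (tl v F) < ε / 2 := by
    have h1 : Tendsto (fun F => σ * Real.sqrt (tl v F)) atTop (𝓝 (σ * Real.sqrt 0)) :=
      ((Real.continuous_sqrt.tendsto 0).comp (tl_tendsto hv)).const_mul σ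
    rw [Real.sqrt_zero, mul_zero] at h1
    exact h1.eventually_lt_const (by positivity)
  obtain ⟨F, hF1, hF2⟩ := (hev.and (eventually_ge_atTop b.support)).exists
  have hu0' : ∑ k ∈ F, b k • v k = u0 := by
    rw [← hb, Finsupp.sum]
    symm
    refine Finset.sum_subset hF2 fun k _ hk => ?_
    rw [Finsupp.notMem_support_iff.1 hk, zero_smul]
  set δ : ℝ := ε / 2 / (1 + ∑ k ∈ F, ‖v k‖) with hδ
  have hS0 : 0 ≤ ∑ k ∈ F, ‖v k‖ := Finset.sum_nonneg fun k _ => norm_nonneg _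
  have hδ0 : 0 < δ := by positivity
  have hch : ∀ k : ℤ, ∃ j : ℕ, dist (b k) (c j) < δ := fun k => hd.exists_dist_lt (b k) hδ0
  choose a ha using hch
  have hclose : ‖(∑ k ∈ F, c (a k) • v k) - u0‖ < ε / 2 := by
    rw [← hu0', ← Finset.sum_sub_distrib]
    calc ‖∑ k ∈ F, (c (a k) • v k - b k • v k)‖ ≤ ∑ k ∈ F, ‖c (a k) • v k - b k • v k‖ :=
          norm_sum_le _ _
      _ ≤ ∑ k ∈ F, δ * ‖v k‖ := by
          refine Finset.sum_le_sum fun k _ => ?_
          rw [← sub_smul, norm_smul]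
          refine mul_le_mul_of_nonneg_right ?_ (norm_nonneg _)
          rw [← dist_eq_norm, dist_comm]
          exact (ha k).le
      _ = δ * ∑ k ∈ F, ‖v k‖ := by rw [Finset.mul_sum]
      _ < ε / 2 := by
          rw [hδ, div_mul_eq_mul_div, div_lt_iff₀ (by positivity)]
          have : (0 : ℝ) < ε / 2 := by positivity
          nlinarith
  obtain ⟨hm, C, hC, hle⟩ := upd_map F a
  have hqm : Measure.QuasiMeasurePreserving (upd F a) mu mu :=
    ⟨hm, Measure.absolutelyContinuous_of_le_smul hle⟩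
  have hident : ∀ᵐ y ∂mu, Φ (upd F a y) = Φ y - SS c v F y + ∑ k ∈ F, c (a k) • v k := by
    filter_upwards [ht, hqm.ae ht] with y hy1 hy2
    have h1 : Tendsto (fun i => SS c v (W i) (upd F a y)) atTop
        (𝓝 (Φ y - SS c v F y + ∑ k ∈ F, c (a k) • v k)) := by
      have h2 := (hy1.sub_const (SS c v F y)).add_const (∑ k ∈ F, c (a k) • v k)
      refine h2.congr' ?_
      filter_upwards [hW F] with i hi
      rw [SS_upd c v hi a y]
    exact tendsto_nhds_unique hy2 h1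
  have hpos := small_pos hc hc2 h0 hv hW ht F hF1
  have h1 : mu {y | ‖Φ y - SS c v F y‖ < ε / 2} ≤ mu (upd F a ⁻¹' (Φ ⁻¹' U)) := by
    refine measure_mono_ae ?_
    filter_upwards [hident] with y hy hy2
    show Φ (upd F a y) ∈ U
    apply hball
    rw [Metric.mem_ball, dist_eq_norm, hy]
    have hy3 : ‖Φ y - SS c v F y‖ < ε / 2 := hy2
    calc ‖Φ y - SS c v F y + ∑ k ∈ F, c (a k) • v k - u0‖
        = ‖(Φ y - SS c v F y) + ((∑ k ∈ F, c (a k) • v k) - u0)‖ := by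
          congr 1
          abel
      _ ≤ ‖Φ y - SS c v F y‖ + ‖(∑ k ∈ F, c (a k) • v k) - u0‖ := norm_add_le _ _
      _ < ε := by linarith
  by_contra hcon
  have h2 : mu (Φ ⁻¹' U) = 0 := by simpa using hcon
  have h3 : mu (upd F a ⁻¹' (Φ ⁻¹' U)) = 0 := hqm.preimage_null h2
  rw [h3] at h1
  exact absurd hpos (not_lt.2 h1)

/-- the abstract criterion -/
theorem abstract_FHC [CompleteSpace H] (T : H →L[ℂ] H) (x : ℤ → H) (hT : ∀ k, T (x k) = x (k + 1))
    (hs : Summable fun k => ‖x k‖ ^ 2) (hd : Dense (Submodule.span ℂ (range x) : Set H)) :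
    ∃ z : H, ∀ U : Set H, IsOpen U → U.Nonempty →
      ∃ δ : ℝ, 0 < δ ∧ ∃ N₀ : ℕ, ∀ N : ℕ, N₀ ≤ N →
        δ * (N : ℝ) ≤ (Nat.card {n : ℕ // n < N ∧ (T ^ n) z ∈ U} : ℝ) := by
  classical
  obtain ⟨c, hc, hc2, h0, hcd⟩ := exists_c
  set v : ℤ → H := fun k => x (-k) with hvdef
  have hv : Summable fun k => ‖v k‖ ^ 2 := (Equiv.neg ℤ).summable_iff.2 hs
  have hvr : range v = range x := by
    ext u
    constructor
    · rintro ⟨k, rfl⟩
      exact ⟨-k, rfl⟩
    · rintro ⟨k, rfl⟩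
      exact ⟨-k, by simp [hvdef]⟩
  obtain ⟨Φ, W, hΦ, hW, ht, ht'⟩ := exists_Phi hc hc2 h0 hv
  have hthm := t_THM
  have herg : Ergodic th mu := t_ERG t_THM
  have hmp : MeasurePreserving th mu mu := hthm.1
  have hTS : ∀ (s : Finset ℤ) (y : Y), SS c v s (th y) = T (SS c v (shf s) y) := by
    intro s y
    unfold SS shf
    rw [Finset.sum_map, map_sum]
    refine Finset.sum_congr rfl fun k _ => ?_
    rw [map_smul]
    show c (y (k + 1)) • x (-k) = c (y (k + 1)) • T (x (-(k + 1)))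
    rw [hT]
    congr 2
    ring
  have heq : ∀ᵐ y ∂mu, Φ (th y) = T (Φ y) := by
    filter_upwards [hmp.quasiMeasurePreserving.ae ht, ht'] with y h1 h2
    have h3 : Tendsto (fun i => SS c v (W i) (th y)) atTop (𝓝 (T (Φ y))) := by
      have h4 := (T.continuous.tendsto (Φ y)).comp h2
      refine h4.congr fun i => ?_
      rw [hTS]
      rfl
    exact tendsto_nhds_unique h1 h3
  have heqn : ∀ᵐ y ∂mu, ∀ n : ℕ, Φ (th^[n] y) = (T ^ n) (Φ y) := by
    have h1 : ∀ᵐ y ∂mu, ∀ n : ℕ, Φ (th (th^[n] y)) = T (Φ (th^[n] y)) := by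
      rw [ae_all_iff]
      intro n
      exact (hmp.iterate n).quasiMeasurePreserving.ae heq
    filter_upwards [h1] with y hy n
    induction n with
    | zero => rfl
    | succ n ih =>
      rw [Function.iterate_succ_apply', hy n, ih, pow_succ']
      rfl
  set 𝓑 := TopologicalSpace.countableBasis H with h𝓑
  have h𝓑c : 𝓑.Countable := TopologicalSpace.countable_countableBasis H
  have hbirk : ∀ᵐ y ∂mu, ∀ B ∈ 𝓑, Tendsto (fun n : ℕ => (n : ℝ)⁻¹ *
      ∑ k ∈ Finset.range n, (Φ ⁻¹' B).indicator (fun _ => (1 : ℝ)) (th^[k] y)) atTop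
      (𝓝 (∫ y, (Φ ⁻¹' B).indicator (fun _ => (1 : ℝ)) y ∂mu)) := by
    rw [ae_ball_iff h𝓑c]
    intro B hB
    have hBo : IsOpen B := TopologicalSpace.isOpen_of_mem_countableBasis hB
    refine birkhoff herg _ (measurable_const.indicator (hΦ hBo.measurableSet)) ⟨1, fun y => ?_⟩
    by_cases hy : y ∈ Φ ⁻¹' B
    · rw [indicator_of_mem hy]; simp
    · rw [indicator_of_notMem hy]; simp
  obtain ⟨y, hy1, hy2⟩ := (heqn.and hbirk).exists
  refine ⟨Φ y, fun U hU hUn => ?_⟩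
  obtain ⟨u, hu⟩ := hUn
  obtain ⟨B, hB, huB, hBU⟩ := (TopologicalSpace.isBasis_countableBasis H).exists_subset_of_mem_open
    hu hU
  have hBo : IsOpen B := TopologicalSpace.isOpen_of_mem_countableBasis hB
  have hpos : 0 < mu (Φ ⁻¹' B) := full_support hc hc2 h0 hcd hv (by rw [hvr]; exact hd) hW ht hBo
    ⟨u, huB⟩
  have hint : ∫ y, (Φ ⁻¹' B).indicator (fun _ => (1 : ℝ)) y ∂mu = mu.real (Φ ⁻¹' B) := by
    rw [integral_indicator (hΦ hBo.measurableSet)]
    simp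
  have hp : 0 < mu.real (Φ ⁻¹' B) := by
    rw [measureReal_def]
    exact ENNReal.toReal_pos hpos.ne' (measure_ne_top _ _)
  have h1 := hy2 B hB
  rw [hint] at h1
  have h2 := (h1.eventually_const_lt (show mu.real (Φ ⁻¹' B) / 2 < mu.real (Φ ⁻¹' B) by
    linarith)).and (eventually_ge_atTop 1)
  obtain ⟨N₀, hN₀⟩ := eventually_atTop.1 h2
  refine ⟨mu.real (Φ ⁻¹' B) / 2, by positivity, N₀, fun N hN => ?_⟩
  obtain ⟨h3, h4⟩ := hN₀ N hN
  have hN0 : (0 : ℝ) < N := by exact_mod_cast h4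
  have h5 : mu.real (Φ ⁻¹' B) / 2 * N < ∑ k ∈ Finset.range N,
      (Φ ⁻¹' B).indicator (fun _ => (1 : ℝ)) (th^[k] y) := by
    rw [inv_mul_eq_div, lt_div_iff₀ hN0] at h3
    exact h3
  refine h5.le.trans ?_
  have h6 : ∑ k ∈ Finset.range N, (Φ ⁻¹' B).indicator (fun _ => (1 : ℝ)) (th^[k] y) =
      (((Finset.range N).filter fun k => Φ (th^[k] y) ∈ B).card : ℝ) := by
    rw [Finset.card_filter]
    push_cast
    refine Finset.sum_congr rfl fun k _ => ?_
    by_cases hk : Φ (th^[k] y) ∈ B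
    · rw [indicator_of_mem (show th^[k] y ∈ Φ ⁻¹' B from hk), if_pos hk]
    · rw [indicator_of_notMem (show th^[k] y ∉ Φ ⁻¹' B from hk), if_neg hk]
  rw [h6]
  have h7 : Nat.card {n : ℕ // n < N ∧ (T ^ n) (Φ y) ∈ U} =
      ((Finset.range N).filter fun k => (T ^ k) (Φ y) ∈ U).card := by
    refine Nat.subtype_card _ fun n => ?_
    rw [Finset.mem_filter, Finset.mem_range]
  rw [h7]
  have h8 : ((Finset.range N).filter fun k => Φ (th^[k] y) ∈ B) ⊆
      ((Finset.range N).filter fun k => (T ^ k) (Φ y) ∈ U) := by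
    intro k hk
    rw [Finset.mem_filter] at hk ⊢
    refine ⟨hk.1, ?_⟩
    rw [← hy1 k]
    exact hBU hk.2
  exact_mod_cast Finset.card_le_card h8

end Pool.Agent.H113R3.FC
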