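import Mathlib
import Pool.Agent.H113R3.FC.Model
import Pool.Agent.H113R3.FC.Rand
import Pool.Agent.H113R3.FC.Mix

set_option autoImplicit false

open MeasureTheory Filter Set
open scoped ENNReal Topology ComplexConjugate InnerProductSpace

namespace Pool.Agent.H113R3.FC

open Pool.Agent.H791R2.RS (E opE opE_apply opE_norm norm_sq_E summable_E)

lemma cont_mk : Continuous fun t : ℝ => (t : TT) := AddCircle.continuous_mk' 1

lemma good_zero {v : E} (h : ∀ᵐ t ∂hm, fE t * Fv v t = 0) {r : ℝ} (hr : Good r) :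
    Fv v (r : TT) = 0 := by
  by_contra hne
  have hc : Continuous fun s : ℝ => Fv v (s : TT) := (Fv v).continuous.comp cont_mk
  have h1 : ∀ᶠ s in 𝓝 r, Fv v ((s : ℝ) : TT) ≠ 0 := hc.continuousAt.eventually_ne hne
  obtain ⟨δ, hδ, hball⟩ := Metric.eventually_nhds_iff.1 h1
  have h2 := (mp_mk (r - 1)).quasiMeasurePreserving.ae h
  rw [ae_restrict_iff' measurableSet_Ioc] at h2
  have h3 : volume (OOᶜ ∩ Ioo (r - min δ 1) r) = 0 := by
    refine measure_mono_null ?_ (ae_iff.1 h2)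
    rintro s ⟨hs1, hs2, hs3⟩
    show ¬ (s ∈ Ioc (r - 1) (r - 1 + 1) → fE (s : TT) * Fv v (s : TT) = 0)
    intro hcon
    have h4 : s ∈ Ioc (r - 1) (r - 1 + 1) := by
      constructor
      · have := min_le_right δ 1
        linarith
      · linarith
    have h5 := hcon h4
    rw [fE_of_not hs1, one_mul] at h5
    refine hball ?_ h5
    rw [Real.dist_eq, abs_lt]
    have := min_le_left δ 1
    constructor <;> linarith
  exact (good_pos hr (lt_min hδ one_pos)).ne' h3

lemma zero_of_good {v : E} (h : ∀ r : ℝ, Good r → Fv v (r : TT) = 0) :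
    ∀ᵐ t ∂hm, fE t * Fv v t = 0 := by
  have hc : Continuous fun s : ℝ => Fv v (s : TT) := (Fv v).continuous.comp cont_mk
  rw [← (mp_mk 0).map_eq, ae_map_iff (mp_mk 0).measurable.aemeasurable]
  · apply ae_restrict_of_ae
    have h1 : ∀ᵐ s : ℝ, s ∉ range (fun q : ℚ => (q : ℝ)) := (countable_range _).ae_notMem _
    filter_upwards [h1] with s hs
    by_cases hsO : s ∈ OO
    · rw [fE_of_mem hsO, zero_mul]
    · have h2 : Tendsto (fun m : ℕ => Fv v (((⌈2 ^ m * s⌉ : ℝ) / 2 ^ m : ℝ) : TT)) atTop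
          (𝓝 (Fv v (s : TT))) := (hc.tendsto s).comp (tendsto_ceil s)
      have h3 : Tendsto (fun m : ℕ => Fv v (((⌈2 ^ m * s⌉ : ℝ) / 2 ^ m : ℝ) : TT)) atTop
          (𝓝 0) := by
        refine tendsto_const_nhds.congr fun m => ?_
        exact (h _ (good_ceil hs hsO m)).symm
      rw [tendsto_nhds_unique h2 h3, mul_zero]
  · exact (fE_meas.mul (Fv v).continuous.measurable) (measurableSet_singleton 0)

lemma mem_clos (s : Set E) (u : E) : u ∈ (Submodule.span ℂ s).topologicalClosure ↔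
    ∀ v : E, (∀ x ∈ s, inner ℂ v x = 0) → inner ℂ v u = 0 := by
  rw [← Submodule.orthogonal_orthogonal_eq_closure, Submodule.mem_orthogonal]
  refine forall_congr' fun v => ?_
  rw [Submodule.mem_orthogonal']
  constructor
  · intro h hx
    refine h fun y hy => ?_
    induction hy using Submodule.span_induction with
    | mem y hy => exact hx y hy
    | zero => simp
    | add y z _ _ hy hz => rw [inner_add_right, hy, hz, add_zero]
    | smul a y _ hy => rw [inner_smul_right, hy, mul_zero]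
  · intro h hx
    exact h fun x hxs => hx x (Submodule.subset_span hxs)

/-- the space -/
noncomputable def KK : Submodule ℂ E := (Submodule.span ℂ (range xx)).topologicalClosure

lemma mem_KK (u : E) : u ∈ KK ↔ ∀ v : E, (∀ k, inner ℂ v (xx k) = 0) → inner ℂ v u = 0 := by
  unfold KK
  rw [mem_clos]
  simp

lemma xx_mem (k : ℤ) : xx k ∈ KK := (mem_KK _).2 fun v hv => hv k

lemma dl_mem {r : ℝ} (hr : Good r) : dl (r : TT) ∈ KK := by
  rw [mem_KK]
  intro v hv
  rw [inner_dl, good_zero ((perp_iff v).1 hv) hr, map_zero]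

instance : CompleteSpace KK :=
  (Submodule.isClosed_topologicalClosure _).completeSpace_coe

lemma dense_of {s : Set KK} (h : ∀ v : KK, (∀ x ∈ s, inner ℂ v x = 0) → v = 0) :
    Dense (Submodule.span ℂ s : Set KK) := by
  rw [Submodule.dense_iff_topologicalClosure_eq_top, Submodule.topologicalClosure_eq_top_iff,
    Submodule.eq_bot_iff]
  intro v hv
  rw [Submodule.mem_orthogonal'] at hv
  exact h v fun x hx => hv x (Submodule.subset_span hx)

/-- the generating orbit in the space -/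
noncomputable def xK (k : ℤ) : KK := ⟨xx k, xx_mem k⟩

lemma zero_of_perp {v : KK} (h : ∀ k, inner ℂ (v : E) (xx k) = 0) : v = 0 := by
  have h1 := (mem_KK (v : E)).1 v.2 (v : E) h
  rw [inner_self_eq_zero] at h1
  exact Subtype.ext h1

lemma dense_xK : Dense (Submodule.span ℂ (range xK) : Set KK) := by
  refine dense_of fun v hv => zero_of_perp fun k => ?_
  exact hv (xK k) ⟨k, rfl⟩

lemma xK_sq : Summable fun k => ‖xK k‖ ^ 2 := xx_sq

lemma dense_dl : Dense (Submodule.span ℂ {u : KK | ∃ r : ℝ, Good r ∧ (u : E) = dl (r : TT)} :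
    Set KK) := by
  refine dense_of fun v hv => zero_of_perp ?_
  rw [perp_iff]
  apply zero_of_good
  intro r hr
  have h1 : inner ℂ (v : E) (dl (r : TT)) = 0 := hv ⟨dl (r : TT), dl_mem hr⟩ ⟨r, hr, rfl⟩
  rw [inner_dl] at h1
  simpa using h1

lemma Tt_span {a : E} (ha' : a ∈ Submodule.span ℂ (range xx)) :
    Tt a ∈ Submodule.span ℂ (range xx) := by
  induction ha' using Submodule.span_induction with
  | mem a ha =>
    obtain ⟨k, rfl⟩ := ha
    rw [Tt_xx]
    exact Submodule.subset_span ⟨_, rfl⟩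
  | zero => simp
  | add a b _ _ h1 h2 => rw [map_add]; exact Submodule.add_mem _ h1 h2
  | smul c a _ h1 => rw [map_smul]; exact Submodule.smul_mem _ _ h1

lemma Tt_mem {u : E} (hu : u ∈ KK) : Tt u ∈ KK :=
  map_mem_closure Tt.continuous hu fun _ ha => Tt_span ha

/-- the operator -/
noncomputable def TK : KK →L[ℂ] KK :=
  (Tt.comp KK.subtypeL).codRestrict KK fun u => Tt_mem u.2

lemma TK_coe (u : KK) : ((TK u : KK) : E) = Tt (u : E) := rfl

lemma TK_xK (k : ℤ) : TK (xK k) = xK (k + 1) := Subtype.ext (Tt_xx k)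

instance : TopologicalSpace.SeparableSpace KK := by
  rw [← TopologicalSpace.isSeparable_univ_iff, ← dense_xK.closure_eq]
  exact ((countable_range xK).isSeparable.span (R := ℂ)).closure

instance : SecondCountableTopology KK := UniformSpace.secondCountable_of_separable KK

lemma TK_FHC : ∃ z : KK, ∀ U : Set KK, IsOpen U → U.Nonempty →
      ∃ δ : ℝ, 0 < δ ∧ ∃ N₀ : ℕ, ∀ N : ℕ, N₀ ≤ N →
        δ * (N : ℝ) ≤ (Nat.card {n : ℕ // n < N ∧ (TK ^ n) z ∈ U} : ℝ) := by
  borelize (↥KK)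
  exact abstract_FHC TK xK TK_xK xK_sq dense_xK

lemma TK_mix (U V : Set KK) (hU : IsOpen U) (hV : IsOpen V) (hUn : U.Nonempty) (hVn : V.Nonempty) :
    ∃ N : ℕ, ∀ n : ℕ, N ≤ n → ((⇑(TK ^ n)) ⁻¹' V ∩ U).Nonempty :=
  abstract_mix TK xK TK_xK xK_sq dense_xK U V hU hV hUn hVn

lemma TK_hyp : ∃ x : KK, Dense (Set.range (fun n : ℕ => (TK ^ n) x)) := by
  obtain ⟨z, hz⟩ := TK_FHC
  refine ⟨z, dense_iff_inter_open.2 fun U hU hUn => ?_⟩
  obtain ⟨δ, hδ, N₀, hN⟩ := hz U hU hUn
  have h1 := hN (N₀ + 1) (by omega)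
  have h2 : (0 : ℝ) < (Nat.card {n : ℕ // n < N₀ + 1 ∧ (TK ^ n) z ∈ U} : ℝ) := by
    refine lt_of_lt_of_le ?_ h1
    positivity
  have h3 : 0 < Nat.card {n : ℕ // n < N₀ + 1 ∧ (TK ^ n) z ∈ U} := by exact_mod_cast h2
  have h4 := (Nat.card_pos_iff.1 h3).1
  obtain ⟨n, _, hn⟩ := h4
  exact ⟨_, hn, n, rfl⟩

lemma dl_per {r : ℝ} {m : ℕ} {K : ℤ} (hr : r = K / 2 ^ m) {M : ℕ} (hM : m ≤ M) (u : KK)
    (hu : (u : E) = dl (r : TT)) : (TK ^ (2 ^ M)) u = u := by
  have h1 : ∀ n : ℕ, (TK ^ n) u = (fourier 1 (r : TT) : ℂ) ^ n • u := by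
    intro n
    induction n with
    | zero => simp
    | succ n ih =>
      rw [pow_succ']
      show TK ((TK ^ n) u) = _
      rw [ih, map_smul]
      have h2 : TK u = (fourier 1 (r : TT) : ℂ) • u := by
        apply Subtype.ext
        rw [TK_coe, hu, Tt_dl, Submodule.coe_smul, hu]
      rw [h2, smul_smul, pow_succ]
  rw [h1]
  have h2 : (fourier 1 (r : TT) : ℂ) ^ (2 ^ M) = 1 := by
    rw [fourier_coe_apply, ← Complex.exp_nat_mul]
    rw [Complex.exp_eq_one_iff]
    refine ⟨K * 2 ^ (M - m), ?_⟩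
    rw [hr]
    push_cast
    rw [show (2 : ℂ) ^ M = 2 ^ (M - m) * 2 ^ m by rw [← pow_add]; congr 1; omega]
    field_simp
  rw [h2, one_smul]

lemma per_span {u : KK} (hu : u ∈ Submodule.span ℂ {u : KK | ∃ r : ℝ, Good r ∧
    (u : E) = dl (r : TT)}) : ∃ m : ℕ, ∀ M, m ≤ M → (TK ^ (2 ^ M)) u = u := by
  induction hu using Submodule.span_induction with
  | mem u hu =>
    obtain ⟨r, ⟨⟨m, K, hr⟩, _⟩, hu⟩ := hu
    exact ⟨m, fun M hM => dl_per hr hM u hu⟩
  | zero => exact ⟨0, fun M _ => map_zero _⟩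
  | add u v _ _ hu hv =>
    obtain ⟨m, hm⟩ := hu
    obtain ⟨m', hm'⟩ := hv
    refine ⟨max m m', fun M hM => ?_⟩
    rw [map_add, hm M ((le_max_left _ _).trans hM), hm' M ((le_max_right _ _).trans hM)]
  | smul a u _ hu =>
    obtain ⟨m, hm⟩ := hu
    exact ⟨m, fun M hM => by rw [map_smul, hm M hM]⟩

lemma TK_per : Dense {x : KK | ∃ n : ℕ, 0 < n ∧ (TK ^ n) x = x} := by
  refine dense_dl.mono fun u hu => ?_
  obtain ⟨m, hm⟩ := per_span hu
  exact ⟨2 ^ m, by positivity, hm m le_rfl⟩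

end Pool.Agent.H113R3.FC
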