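import Mathlib
import Pool.Agent.H113R3.FC.Space

set_option autoImplicit false

open MeasureTheory Filter Set
open scoped ENNReal Topology ComplexConjugate InnerProductSpace

namespace Pool.Agent.H113R3.FC

open Pool.Agent.H791R2.RS (E opE opE_apply opE_norm norm_sq_E summable_E)

/-! ### test functions -/

/-- the lift of a function on the line to the circle -/
noncomputable def lf (g : ℝ → ℝ) (h01 : g 0 = 0 ∧ g 1 = 0) (hg : Continuous g) : C(TT, ℂ) :=
  ⟨AddCircle.liftIco 1 0 (fun t => (g t : ℂ)),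
    AddCircle.liftIco_zero_continuous (by rw [h01.1, h01.2]) (by fun_prop)⟩

lemma lf_apply {g : ℝ → ℝ} (h01 : g 0 = 0 ∧ g 1 = 0) (hg : Continuous g) {t : ℝ}
    (ht : t ∈ Icc (0 : ℝ) 1) : lf g h01 hg (t : TT) = (g t : ℂ) := by
  rcases eq_or_lt_of_le ht.2 with h1 | h1
  · subst h1
    have e : ((1 : ℝ) : TT) = ((0 : ℝ) : TT) := by
      rw [AddCircle.coe_zero]
      exact AddCircle.coe_period 1
    rw [e]
    show AddCircle.liftIco 1 0 (fun t => (g t : ℂ)) ((0 : ℝ) : TT) = _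
    rw [AddCircle.liftIco_zero_coe_apply ⟨le_rfl, one_pos⟩, h01.1, h01.2]
  · show AddCircle.liftIco 1 0 (fun t => (g t : ℂ)) (t : TT) = _
    rw [AddCircle.liftIco_zero_coe_apply ⟨ht.1, h1⟩]

lemma coef_deriv {g : ℝ → ℝ} (hg : ContDiff ℝ 1 g) (h01 : g 0 = 0 ∧ g 1 = 0)
    (h01' : deriv g 0 = 0 ∧ deriv g 1 = 0) (hg' : Continuous (deriv g)) (n : ℤ) :
    fourierCoeff (lf (deriv g) h01' hg') n =
      2 * Real.pi * Complex.I * n * fourierCoeff (lf g h01 hg.continuous) n := by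
  rw [fourierCoeff_eq_intervalIntegral _ n 0, fourierCoeff_eq_intervalIntegral _ n 0]
  simp only [zero_add, div_one, one_smul]
  have e1 : ∫ x in (0 : ℝ)..1, (fourier (-n) (x : TT) : ℂ) • lf (deriv g) h01' hg' (x : TT) =
      ∫ x in (0 : ℝ)..1, (fourier (-n) (x : TT) : ℂ) * ((deriv g x : ℝ) : ℂ) := by
    refine intervalIntegral.integral_congr fun x hx => ?_
    rw [uIcc_of_le zero_le_one] at hx
    simp only [smul_eq_mul]
    rw [lf_apply h01' hg' hx]
  have e2 : ∫ x in (0 : ℝ)..1, (fourier (-n) (x : TT) : ℂ) • lf g h01 hg.continuous (x : TT) =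
      ∫ x in (0 : ℝ)..1, (fourier (-n) (x : TT) : ℂ) * ((g x : ℝ) : ℂ) := by
    refine intervalIntegral.integral_congr fun x hx => ?_
    rw [uIcc_of_le zero_le_one] at hx
    simp only [smul_eq_mul]
    rw [lf_apply h01 hg.continuous hx]
  rw [e1, e2]
  have hc : Continuous fun x : ℝ => (fourier (-n) (x : TT) : ℂ) :=
    (fourier (-n)).continuous.comp cont_mk
  have h := intervalIntegral.integral_mul_deriv_eq_deriv_mul (a := 0) (b := 1)
    (u := fun x : ℝ => (fourier (-n) (x : TT) : ℂ))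
    (u' := fun x : ℝ => -2 * Real.pi * Complex.I * n / (1 : ℝ) * (fourier (-n) (x : TT) : ℂ))
    (v := fun x : ℝ => (g x : ℂ)) (v' := fun x : ℝ => ((deriv g x : ℝ) : ℂ))
    (fun x _ => hasDerivAt_fourier_neg (1 : ℝ) n x)
    (fun x _ => ((hg.differentiable one_ne_zero).differentiableAt.hasDerivAt).ofReal_comp)
    ((by fun_prop : Continuous fun x : ℝ => -2 * Real.pi * Complex.I * n / ((1 : ℝ) : ℂ) *
      (fourier (-n) (x : TT) : ℂ)).intervalIntegrable _ _)
    ((by fun_prop : Continuous fun x : ℝ => ((deriv g x : ℝ) : ℂ)).intervalIntegrable _ _)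
  rw [h, h01.1, h01.2]
  have e3 : ∫ x in (0 : ℝ)..1, -2 * Real.pi * Complex.I * n / ((1 : ℝ) : ℂ) *
      (fourier (-n) (x : TT) : ℂ) * (g x : ℂ) =
      (-2 * Real.pi * Complex.I * n) * ∫ x in (0 : ℝ)..1, (fourier (-n) (x : TT) : ℂ) * (g x : ℂ) := by
    rw [← intervalIntegral.integral_const_mul]
    refine intervalIntegral.integral_congr fun x _ => ?_
    show -2 * Real.pi * Complex.I * n / ((1 : ℝ) : ℂ) * (fourier (-n) (x : TT) : ℂ) * (g x : ℂ) =
      -2 * Real.pi * Complex.I * n * ((fourier (-n) (x : TT) : ℂ) * (g x : ℂ))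
    push_cast
    ring
  rw [e3]
  push_cast
  ring

lemma sq_coef_cont (f : C(TT, ℂ)) : Summable fun n => ‖fourierCoeff f n‖ ^ 2 := by
  have h := summable_E (fourierBasis.repr (cL f))
  refine h.congr fun n => ?_
  rw [fourierBasis_repr, fourierCoeff_toLp]

lemma exists_v {g : ℝ → ℝ} (hg : ContDiff ℝ 1 g) (h01 : g 0 = 0 ∧ g 1 = 0)
    (h01' : deriv g 0 = 0 ∧ deriv g 1 = 0) : ∃ v : E, Fv v = lf g h01 hg.continuous := by
  have hg' : Continuous (deriv g) := hg.continuous_deriv le_rfl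
  set c : ℤ → ℂ := fun n => fourierCoeff (lf g h01 hg.continuous) n with hc
  have h1 : Summable fun n => ‖c n‖ ^ 2 := sq_coef_cont _
  have h2 : Summable fun n : ℤ => ‖2 * Real.pi * Complex.I * n * c n‖ ^ 2 := by
    refine (sq_coef_cont (lf (deriv g) h01' hg')).congr fun n => ?_
    rw [coef_deriv hg h01 h01' hg' n]
  have h3 : Summable fun n : ℤ => ‖c n / w n‖ ^ 2 := by
    refine Summable.of_nonneg_of_le (fun n => by positivity) (fun n => ?_)
      ((h1.mul_left 2).add (h2.mul_left 2))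
    have e1 : ‖c n / w n‖ ^ 2 = (1 + |(n : ℝ)|) ^ 2 * ‖c n‖ ^ 2 := by
      rw [norm_div, Complex.norm_real, Real.norm_of_nonneg (w_pos n).le, div_pow]
      unfold w
      rw [inv_pow]
      field_simp
    have e2 : ‖2 * Real.pi * Complex.I * n * c n‖ ^ 2 = (2 * Real.pi * |(n : ℝ)|) ^ 2 * ‖c n‖ ^ 2 := by
      rw [← mul_pow]
      congr 1
      rw [norm_mul]
      congr 1
      simp [abs_of_pos Real.pi_pos]
    rw [e1, e2]
    have h4 : (1 + |(n : ℝ)|) ^ 2 ≤ 2 + 2 * (2 * Real.pi * |(n : ℝ)|) ^ 2 := by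
      have h5 : |(n : ℝ)| ≤ 2 * Real.pi * |(n : ℝ)| := by
        have := Real.pi_gt_three
        nlinarith [abs_nonneg (n : ℝ)]
      have h6 : |(n : ℝ)| ^ 2 ≤ (2 * Real.pi * |(n : ℝ)|) ^ 2 :=
        pow_le_pow_left₀ (abs_nonneg _) h5 2
      nlinarith [sq_nonneg (1 - |(n : ℝ)|)]
    have h7 := mul_le_mul_of_nonneg_right h4 (sq_nonneg ‖c n‖)
    linarith
  let v : E := ⟨fun n => c n / w n, by
    apply memℓp_gen
    simpa using h3⟩
  have hv : ∀ n, (w n : ℂ) * v n = c n := by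
    intro n
    have h' : ((w n : ℝ) : ℂ) ≠ 0 := by exact_mod_cast (w_pos n).ne'
    show (w n : ℂ) * (c n / w n) = c n
    field_simp
  refine ⟨v, ?_⟩
  have h4 : Summable c := by
    have := (summable_wv v).of_norm
    refine this.congr fun n => (hv n)
  have h5 := hasSum_fourier_series_of_summable h4
  unfold Fv syn
  rw [← h5.tsum_eq]
  refine tsum_congr fun n => ?_
  show ((w n : ℂ) * v n) • _ = c n • _
  rw [hv n]

/-! ### the function of a vector with summable orbit vanishes -/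

lemma zero_of_perp_tests {Z : C(TT, ℂ)}
    (h : ∀ v : E, (∀ k, inner ℂ v (xx k) = 0) → inner ℂ (cL (Fv v)) (cL Z) = 0) : Z = 0 := by
  have hcZ : Continuous fun t : ℝ => Z (t : TT) := Z.continuous.comp cont_mk
  have hU : IsOpen (OO ∩ Ioo (0 : ℝ) 1) := isOpen_OO.inter isOpen_Ioo
  have h1 : ∀ᵐ t : ℝ, t ∈ OO ∩ Ioo (0 : ℝ) 1 → Z (t : TT) = 0 := by
    refine hU.ae_eq_zero_of_integral_contDiff_smul_eq_zero
      (hcZ.locallyIntegrable.locallyIntegrableOn _) fun g hg hgc hgs => ?_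
    have hg0 : ∀ t, t ∉ OO ∩ Ioo (0 : ℝ) 1 → g t = 0 := fun t ht =>
      image_eq_zero_of_notMem_tsupport fun h' => ht (hgs h')
    have hg0' : ∀ t, t ∉ OO ∩ Ioo (0 : ℝ) 1 → deriv g t = 0 := fun t ht => by
      by_contra hne
      exact ht (hgs (support_deriv_subset hne))
    have n0 : (0 : ℝ) ∉ OO ∩ Ioo (0 : ℝ) 1 := fun h' => lt_irrefl _ h'.2.1
    have n1 : (1 : ℝ) ∉ OO ∩ Ioo (0 : ℝ) 1 := fun h' => lt_irrefl _ h'.2.2
    have hg1 : ContDiff ℝ 1 g := hg.of_le (by exact_mod_cast le_top)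
    obtain ⟨v, hv⟩ := exists_v hg1 ⟨hg0 0 n0, hg0 1 n1⟩ ⟨hg0' 0 n0, hg0' 1 n1⟩
    have hperp : ∀ k, inner ℂ v (xx k) = 0 := by
      rw [perp_iff]
      refine Filter.Eventually.of_forall fun t => ?_
      have ht : t ∈ ((↑) : ℝ → TT) '' Ico (0 : ℝ) (0 + 1) := by
        rw [AddCircle.coe_image_Ico_eq]; trivial
      obtain ⟨s, hs, rfl⟩ := ht
      rw [zero_add] at hs
      by_cases hsO : s ∈ OO
      · rw [fE_of_mem hsO, zero_mul]
      · rw [hv, lf_apply _ _ ⟨hs.1, hs.2.le⟩, hg0 s (fun h' => hsO h'.1)]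
        simp
    have h2 := h v hperp
    rw [hv, L2.inner_def] at h2
    have h3 : ∫ t, inner ℂ ((cL (lf g ⟨hg0 0 n0, hg0 1 n1⟩ hg1.continuous) : L2) t) ((cL Z : L2) t)
        ∂hm = ∫ t, conj (lf g ⟨hg0 0 n0, hg0 1 n1⟩ hg1.continuous t) * Z t ∂hm := by
      refine integral_congr_ae ?_
      filter_upwards [ContinuousMap.coeFn_toLp (p := 2) (𝕜 := ℂ) hm
        (lf g ⟨hg0 0 n0, hg0 1 n1⟩ hg1.continuous),
        ContinuousMap.coeFn_toLp (p := 2) (𝕜 := ℂ) hm Z] with t h1 h2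
      rw [h1, h2]
      simp only [RCLike.inner_apply]
      ring
    rw [h3, ← vol_eq, ← AddCircle.integral_preimage 1 0] at h2
    rw [zero_add] at h2
    have h4 : ∫ t in Ioc (0 : ℝ) 1, conj (lf g ⟨hg0 0 n0, hg0 1 n1⟩ hg1.continuous (t : TT)) *
        Z (t : TT) = ∫ t in Ioc (0 : ℝ) 1, g t • Z (t : TT) := by
      refine setIntegral_congr_fun measurableSet_Ioc fun t ht => ?_
      show conj (lf g ⟨hg0 0 n0, hg0 1 n1⟩ hg1.continuous (t : TT)) * Z (t : TT) = g t • Z (t : TT)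
      rw [lf_apply _ _ ⟨ht.1.le, ht.2⟩, Complex.conj_ofReal, Complex.real_smul]
    rw [h4, setIntegral_eq_integral_of_forall_compl_eq_zero] at h2
    · exact h2
    · intro t ht
      rw [hg0 t (fun h' => ht ⟨h'.2.1, h'.2.2.le⟩), zero_smul]
  have h2 : EqOn (fun t : ℝ => Z (t : TT)) (fun _ => 0) (OO ∩ Ioo (0 : ℝ) 1) := by
    refine Measure.eqOn_open_of_ae_eq (μ := volume) ?_ hU hcZ.continuousOn continuousOn_const
    exact (ae_restrict_iff' hU.measurableSet).2 h1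
  have h3 : ∀ t ∈ Icc (0 : ℝ) 1, Z (t : TT) = 0 := by
    have hcl : IsClosed {t : ℝ | Z (t : TT) = 0} := isClosed_eq hcZ continuous_const
    have h4 : closure (Ioo (0 : ℝ) 1) ⊆ {t : ℝ | Z (t : TT) = 0} := by
      refine closure_minimal ?_ hcl
      refine (dense_OO.open_subset_closure_inter isOpen_Ioo).trans ?_
      refine closure_minimal ?_ hcl
      rintro t ⟨ht1, ht2⟩
      exact h2 ⟨ht2, ht1⟩
    rw [closure_Ioo zero_ne_one] at h4
    exact fun t ht => h4 ht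
  ext t
  have ht : t ∈ ((↑) : ℝ → TT) '' Ico (0 : ℝ) (0 + 1) := by
    rw [AddCircle.coe_image_Ico_eq]; trivial
  obtain ⟨s, hs, rfl⟩ := ht
  rw [zero_add] at hs
  rw [h3 s ⟨hs.1, hs.2.le⟩]
  rfl

/-! ### coordinates -/

lemma TK_pow_coord (n : ℕ) (u : KK) (m : ℤ) :
    (((TK ^ n) u : KK) : E) m = ((w m / w (m - n) : ℝ) : ℂ) * (u : E) (m - n) := by
  induction n generalizing m with
  | zero =>
    have := (w_pos m).ne'
    simp [this]
  | succ n ih =>
    rw [pow_succ']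
    show ((TK ((TK ^ n) u) : KK) : E) m = _
    rw [TK_coe, Tt_apply, ih]
    have h1 : ((w (m - 1) : ℝ) : ℂ) ≠ 0 := by exact_mod_cast (w_pos (m - 1)).ne'
    have h2 : m - 1 - (n : ℤ) = m - ((n + 1 : ℕ) : ℤ) := by push_cast; ring
    rw [h2]
    push_cast
    field_simp

/-- evaluation at `0` -/
noncomputable def ev0 : KK →L[ℂ] ℂ := (innerSL ℂ (lp.single 2 (0 : ℤ) (1 : ℂ) : E)).comp KK.subtypeL

lemma ev0_apply (u : KK) : ev0 u = (u : E) 0 := by
  show inner ℂ (lp.single 2 (0 : ℤ) (1 : ℂ) : E) (u : E) = _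
  rw [lp.inner_single_left]
  simp

theorem zero_of_summable {z : KK} (h1 : Summable fun n : ℕ => (TK ^ n) z) {y : ℕ → KK}
    (hy : ∀ n, (TK ^ n) (y n) = z) (h2 : Summable y) : z = 0 := by
  set ζ : ℤ → ℂ := fun n => (z : E) n / w n with hζ
  have hw : ∀ n, ((w n : ℝ) : ℂ) ≠ 0 := fun n => by exact_mod_cast (w_pos n).ne'
  have hw0 : w 0 = 1 := by simp [w]
  have h3 : Summable fun n : ℕ => ζ (-(n : ℤ)) := by
    have h := h1.mapL ev0
    refine h.congr fun n => ?_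
    rw [ev0_apply, TK_pow_coord, hw0]
    simp only [hζ, zero_sub]
    have := hw (-(n : ℤ))
    push_cast
    field_simp
  have h4 : Summable fun n : ℕ => ζ (n : ℤ) := by
    have h := h2.mapL ev0
    refine h.congr fun n => ?_
    rw [ev0_apply]
    have h5 := TK_pow_coord n (y n) n
    rw [hy n, sub_self, hw0] at h5
    simp only [hζ]
    rw [h5]
    have := hw (n : ℤ)
    push_cast
    field_simp
  have h5 : Summable ζ := Summable.of_nat_of_neg h4 h3
  have h6 : Summable fun n => ‖ζ n‖ := h5.norm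
  have hz : (z : E) = Ds (fourierBasis.repr (cL (syn ζ))) := by
    ext n
    rw [Ds_apply, repr_cL_syn h6]
    simp only [hζ]
    have := hw n
    field_simp
  have h7 : syn ζ = 0 := by
    refine zero_of_perp_tests fun v hv => ?_
    rw [← inner_V, ← hz]
    exact (mem_KK _).1 z.2 v hv
  apply Subtype.ext
  rw [hz, h7]
  simp

theorem no_crit : ¬ ∃ X₀ : Set KK, Dense X₀ ∧ ∃ S : KK → KK, (∀ x ∈ X₀, S x ∈ X₀) ∧
    ∀ x ∈ X₀, Summable (fun n : ℕ => (TK ^ n) x) ∧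
      Summable (fun n : ℕ => S^[n] x) ∧ TK (S x) = x := by
  rintro ⟨X₀, hX₀, S, hS, h⟩
  obtain ⟨t, ht, htO⟩ := exists_irr
  have hg := good_ceil ht htO 0
  set r : ℝ := (⌈2 ^ 0 * t⌉ : ℝ) / 2 ^ 0 with hr
  have hne : (⟨dl (r : TT), dl_mem hg⟩ : KK) ≠ 0 := by
    intro h0
    have h1 : (dl (r : TT)) = 0 := congrArg Subtype.val h0
    have h2 := congrArg (fun u : E => u 0) h1
    simp only [dl_apply] at h2
    have h3 : w 0 = 1 := by simp [w]
    rw [h3] at h2
    simp at h2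
  obtain ⟨z, hz, hzX⟩ := hX₀.inter_open_nonempty {(0 : KK)}ᶜ isOpen_compl_singleton ⟨_, hne⟩
  have hSn : ∀ n : ℕ, S^[n] z ∈ X₀ ∧ (TK ^ n) (S^[n] z) = z := by
    intro n
    induction n with
    | zero => exact ⟨hzX, rfl⟩
    | succ n ih =>
      rw [Function.iterate_succ_apply']
      refine ⟨hS _ ih.1, ?_⟩
      rw [pow_succ]
      show (TK ^ n) (TK (S (S^[n] z))) = z
      rw [(h _ ih.1).2.2, ih.2]
  exact hz (zero_of_summable (h z hzX).1 (fun n => (hSn n).2) (h z hzX).2.1)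

end Pool.Agent.H113R3.FC
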